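import Pool.Agent.Lib.MP_b039ef_an.Defs

set_option autoImplicit false

namespace Pool.Agent.MP_b039ef_an

open scoped ENNReal NNReal
open MeasureTheory

theorem coverNum_le {E : Type} [PseudoEMetricSpace E] (r : ℝ) (S : Set E) (k : ℕ)
    (U : Fin k → Set E) (hU : ∀ i, Metric.ediam (U i) ≤ ENNReal.ofReal r) (hS : S ⊆ ⋃ i, U i) :
    coverNum r S ≤ k :=
  sInf_le ⟨k, U, rfl, hU, hS⟩

theorem le_coverNum {E : Type} [PseudoEMetricSpace E] (r : ℝ) (S : Set E) (a : ℝ≥0∞)
    (h : ∀ (k : ℕ) (U : Fin k → Set E), (∀ i, Metric.ediam (U i) ≤ ENNReal.ofReal r) →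
      S ⊆ ⋃ i, U i → a ≤ k) : a ≤ ((coverNum r S : ℕ∞) : ℝ≥0∞) := by
  by_cases hne : {n : ℕ∞ | ∃ (k : ℕ) (U : Fin k → Set E), n = k ∧
    (∀ i, Metric.ediam (U i) ≤ ENNReal.ofReal r) ∧ S ⊆ ⋃ i, U i}.Nonempty
  · obtain ⟨k, U, hk, hU, hS⟩ := csInf_mem hne
    unfold coverNum
    rw [hk]
    simpa using h k U hU hS
  · rw [Set.not_nonempty_iff_eq_empty] at hne
    unfold coverNum
    rw [hne, sInf_empty]
    simp

theorem coverNum_ball {d : ℕ} (S : Set (EuclideanSpace ℝ (Fin d))) (y : EuclideanSpace ℝ (Fin d))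
    (ρ r : ℝ) (hρ : 0 < ρ) (hr : 0 < r) (hS : Metric.closedBall y ρ ⊆ S) :
    ENNReal.ofReal ((ρ / r) ^ d) ≤ ((coverNum r S : ℕ∞) : ℝ≥0∞) := by
  apply le_coverNum
  intro k U hU hSU
  set v := volume (Metric.ball (0 : EuclideanSpace ℝ (Fin d)) 1) with hv
  have hv0 : v ≠ 0 := (Metric.measure_ball_pos volume _ one_pos).ne'
  have hvt : v ≠ ⊤ := measure_ball_lt_top.ne
  have h1 : volume (Metric.closedBall y ρ) = ENNReal.ofReal (ρ ^ d) * v := by
    rw [Measure.addHaar_closedBall volume y hρ.le, finrank_euclideanSpace_fin]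
  have h2 : ∀ i, volume (U i) ≤ ENNReal.ofReal (r ^ d) * v := by
    intro i
    rcases (U i).eq_empty_or_nonempty with he | ⟨x, hx⟩
    · rw [he, measure_empty]; exact zero_le
    · have h3 : U i ⊆ Metric.closedBall x r := by
        intro z hz
        have h4 := (Metric.edist_le_ediam_of_mem hz hx).trans (hU i)
        rw [edist_dist] at h4
        rw [Metric.mem_closedBall]
        exact (ENNReal.ofReal_le_ofReal_iff hr.le).1 h4
      calc volume (U i) ≤ volume (Metric.closedBall x r) := measure_mono h3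
        _ = _ := by rw [Measure.addHaar_closedBall volume x hr.le, finrank_euclideanSpace_fin]
  have h5 : ENNReal.ofReal (ρ ^ d) * v ≤ k * (ENNReal.ofReal (r ^ d) * v) := by
    rw [← h1]
    calc volume (Metric.closedBall y ρ) ≤ volume (⋃ i, U i) := measure_mono (hS.trans hSU)
      _ ≤ ∑ i, volume (U i) := measure_iUnion_fintype_le _ _
      _ ≤ ∑ _i : Fin k, ENNReal.ofReal (r ^ d) * v := Finset.sum_le_sum fun i _ => h2 i
      _ = _ := by simp
  rw [← mul_assoc] at h5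
  have h6 : ENNReal.ofReal (ρ ^ d) ≤ k * ENNReal.ofReal (r ^ d) :=
    (ENNReal.mul_le_mul_iff_left hv0 hvt).1 h5
  rw [div_pow, ENNReal.ofReal_div_of_pos (by positivity)]
  exact ENNReal.div_le_of_le_mul h6

end Pool.Agent.MP_b039ef_an
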