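import Mathlib

set_option autoImplicit false

namespace Pool.Agent.MP_b039ef_an

open scoped ENNReal NNReal

/-- `F` is the self-affine set of the maps `x ↦ A i x + t i`: nonempty, compact and
`F = ⋃ i, (A i F + t i)`. -/
def IsSelfAffineSet {E : Type} [NormedAddCommGroup E] [NormedSpace ℝ E] {ι : Type}
    (A : ι → E →L[ℝ] E) (t : ι → E) (F : Set E) : Prop :=
  F.Nonempty ∧ IsCompact F ∧ F = ⋃ i, (fun x => A i x + t i) '' F

/-- `N_r(S)`: the least number of sets of diameter at most `r` covering `S` (`⊤` if there is no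
finite cover). -/
noncomputable def coverNum {E : Type} [PseudoEMetricSpace E] (r : ℝ) (S : Set E) : ℕ∞ :=
  sInf {n : ℕ∞ | ∃ (k : ℕ) (U : Fin k → Set E), n = k ∧
    (∀ i, Metric.ediam (U i) ≤ ENNReal.ofReal r) ∧ S ⊆ ⋃ i, U i}

/-- The Assouad dimension: the infimum of the `s ≥ 0` for which there is `C > 0` with
`N_r(B(x,R) ∩ F) ≤ C (R/r)^s` for all `x ∈ F` and `0 < r < R`. -/
noncomputable def assouadDim {E : Type} [PseudoMetricSpace E] (F : Set E) : ℝ≥0∞ :=
  ⨅ (s : ℝ≥0) (_ : ∃ C : ℝ, 0 < C ∧ ∀ x ∈ F, ∀ r R : ℝ, 0 < r → r < R →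
    ((coverNum r (Metric.closedBall x R ∩ F) : ℕ∞) : ℝ≥0∞) ≤
      ENNReal.ofReal (C * (R / r) ^ (s : ℝ))), (s : ℝ≥0∞)

/-- The lower dimension: the supremum of the `s ≥ 0` for which there is `C > 0` with
`N_r(B(x,R) ∩ F) ≥ C (R/r)^s` for all `x ∈ F` and `0 < r < R ≤ |F|`. -/
noncomputable def lowerDim {E : Type} [PseudoMetricSpace E] (F : Set E) : ℝ≥0∞ :=
  ⨆ (s : ℝ≥0) (_ : ∃ C : ℝ, 0 < C ∧ ∀ x ∈ F, ∀ r R : ℝ, 0 < r → r < R → R ≤ Metric.diam F →
    ENNReal.ofReal (C * (R / r) ^ (s : ℝ)) ≤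
      ((coverNum r (Metric.closedBall x R ∩ F) : ℕ∞) : ℝ≥0∞)), (s : ℝ≥0∞)

section attractor

variable {E : Type} [NormedAddCommGroup E] [NormedSpace ℝ E] {ι : Type}

/-- Existence and uniqueness of the self-affine set. -/
theorem hutchinson [CompleteSpace E] [Finite ι] [Nonempty ι] (A : ι → E →L[ℝ] E)
    (hA : ∀ i, ‖A i‖ ≤ 1 / 2) (t : ι → E) : ∃! F : Set E, IsSelfAffineSet A t F := by
  classical
  let f : ι → E → E := fun i x => A i x + t i
  have hfc : ∀ i, Continuous (f i) := fun i => (A i).continuous.add continuous_const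
  have hfl : ∀ i x y, dist (f i x) (f i y) ≤ 1 / 2 * dist x y := by
    intro i x y
    simp only [f]
    rw [dist_add_right, dist_eq_norm, dist_eq_norm, ← map_sub]
    exact ((A i).le_opNorm _).trans (mul_le_mul_of_nonneg_right (hA i) (norm_nonneg _))
  let Φ : TopologicalSpace.NonemptyCompacts E → TopologicalSpace.NonemptyCompacts E := fun K =>
    { carrier := ⋃ i, f i '' (K : Set E)
      isCompact' := isCompact_iUnion fun i => K.isCompact.image (hfc i)
      nonempty' := by
        obtain ⟨x, hx⟩ := K.nonempty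
        exact ⟨f (Classical.arbitrary ι) x, Set.mem_iUnion.2 ⟨_, x, hx, rfl⟩⟩ }
  have hΦ : ContractingWith (1 / 2 : ℝ≥0) Φ := by
    refine ⟨by norm_num, ?_⟩
    apply LipschitzWith.of_dist_le_mul
    intro K L
    rw [Metric.NonemptyCompacts.dist_eq, Metric.NonemptyCompacts.dist_eq]
    have hfin : Metric.hausdorffEDist (K : Set E) (L : Set E) ≠ ⊤ :=
      Metric.hausdorffEDist_ne_top_of_nonempty_of_bounded K.nonempty L.nonempty
        K.isCompact.isBounded L.isCompact.isBounded
    have hfin' : Metric.hausdorffEDist (L : Set E) (K : Set E) ≠ ⊤ := by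
      rw [Metric.hausdorffEDist_comm]; exact hfin
    have key : ∀ (K L : TopologicalSpace.NonemptyCompacts E),
        Metric.hausdorffEDist (K : Set E) (L : Set E) ≠ ⊤ →
        ∀ x ∈ (⋃ i, f i '' (K : Set E)), ∃ y ∈ (⋃ i, f i '' (L : Set E)),
          dist x y ≤ (1 / 2) * Metric.hausdorffDist (K : Set E) (L : Set E) := by
      intro K L hfin x hx
      obtain ⟨i, k, hk, rfl⟩ := Set.mem_iUnion.1 hx
      obtain ⟨l, hl, hl'⟩ := L.isCompact.exists_infDist_eq_dist L.nonempty k
      refine ⟨f i l, Set.mem_iUnion.2 ⟨i, l, hl, rfl⟩, ?_⟩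
      refine (hfl i k l).trans ?_
      apply mul_le_mul_of_nonneg_left _ (by norm_num)
      rw [← hl']
      exact Metric.infDist_le_hausdorffDist_of_mem hk hfin
    have := Metric.hausdorffDist_le_of_mem_dist
      (s := ⋃ i, f i '' (K : Set E)) (t := ⋃ i, f i '' (L : Set E))
      (r := (1 / 2) * Metric.hausdorffDist (K : Set E) (L : Set E))
      (mul_nonneg (by norm_num) Metric.hausdorffDist_nonneg) (key K L hfin) (by
        intro x hx
        have := key L K hfin' x hx
        rwa [Metric.hausdorffDist_comm] at this)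
    refine this.trans (le_of_eq ?_)
    push_cast
    ring
  have : Nonempty (TopologicalSpace.NonemptyCompacts E) := ⟨⟨⟨{0}, isCompact_singleton⟩, ⟨0, rfl⟩⟩⟩
  refine ⟨(ContractingWith.fixedPoint Φ hΦ : TopologicalSpace.NonemptyCompacts E), ?_, ?_⟩
  · refine ⟨TopologicalSpace.NonemptyCompacts.nonempty _,
      TopologicalSpace.NonemptyCompacts.isCompact _, ?_⟩
    have h := ContractingWith.fixedPoint_isFixedPt (f := Φ) hΦ
    have h2 : ((Φ (ContractingWith.fixedPoint Φ hΦ) : TopologicalSpace.NonemptyCompacts E) : Set E) =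
        (ContractingWith.fixedPoint Φ hΦ : TopologicalSpace.NonemptyCompacts E) := by rw [h]
    exact h2.symm
  · rintro F ⟨h1, h2, h3⟩
    let K : TopologicalSpace.NonemptyCompacts E := ⟨⟨F, h2⟩, h1⟩
    have hK : Function.IsFixedPt Φ K := by
      apply SetLike.coe_injective
      exact h3.symm
    have h4 := ContractingWith.fixedPoint_unique hΦ hK
    have h5 : (K : Set E) = F := rfl
    rw [← h5, h4]

end attractor

end Pool.Agent.MP_b039ef_an
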