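import Pool.Agent.Lib.MP_b039ef_an.Cover

set_option autoImplicit false

/-!
# A self-affine set with a dominated family of covectors and no ties has lower dimension at most 1
-/

namespace Pool.Agent.MP_b039ef_an

open scoped ENNReal NNReal

section det

variable {E : Type} [NormedAddCommGroup E] [NormedSpace ℝ E] {ι : Type}

/-- The supremum of the covector `u` on the `i`-th piece of `F`. -/
noncomputable def hgt (A : ι → E →L[ℝ] E) (t : ι → E) (F : Set E) (i : ι) (u : E →L[ℝ] ℝ) : ℝ :=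
  sSup ((fun x => u (A i x + t i)) '' F)

/-- `U` is a family of covectors which is invariant under the maps `u ↦ u ∘ A i` up to scalars
`c` with `|c| ≥ a`, and the maps `A i` contract the kernels by the factor `θ |c|`. -/
structure DomFam (A : ι → E →L[ℝ] E) (U : Set (E →L[ℝ] ℝ)) (a θ : ℝ) : Prop where
  nonempty : U.Nonempty
  lower : ∃ m > 0, ∀ u ∈ U, m ≤ ‖u‖
  upper : ∃ M, ∀ u ∈ U, ‖u‖ ≤ M
  pos : 0 < a
  nonneg : 0 ≤ θ
  lt_one : θ < 1
  inv : ∀ u ∈ U, ∀ i, ∃ c : ℝ, ∃ u' ∈ U, a ≤ |c| ∧ (∀ x, u (A i x) = c * u' x) ∧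
    ∀ x, u (A i x) = 0 → ‖A i x‖ ≤ θ * |c| * ‖x‖

/-- The symmetric version of `DomFam` used in the proof. -/
private structure SFam (A : ι → E →L[ℝ] E) (V : Set (E →L[ℝ] ℝ)) (a θ m M : ℝ) : Prop where
  m_pos : 0 < m
  lower : ∀ u ∈ V, m ≤ ‖u‖
  upper : ∀ u ∈ V, ‖u‖ ≤ M
  pos : 0 < a
  θ_pos : 0 < θ
  lt_one : θ < 1
  inv : ∀ u ∈ V, ∀ i, ∃ c : ℝ, ∃ u' ∈ V, a ≤ c ∧ (∀ x, u (A i x) = c * u' x) ∧
    ∀ x, u (A i x) = 0 → ‖A i x‖ ≤ θ * c * ‖x‖

private theorem sfam_of {A : ι → E →L[ℝ] E} {U : Set (E →L[ℝ] ℝ)} {a θ : ℝ}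
    (h : DomFam A U a θ) : ∃ m M, SFam A (U ∪ {v | -v ∈ U}) a ((θ + 1) / 2) m M := by
  have hθ0 := h.nonneg
  have hθ1 := h.lt_one
  obtain ⟨m, hm, hm'⟩ := h.lower
  obtain ⟨M, hM⟩ := h.upper
  refine ⟨m, M, hm, ?_, ?_, h.pos, by linarith, by linarith, ?_⟩
  · rintro u (hu | hu)
    · exact hm' u hu
    · rw [← norm_neg]
      exact hm' _ hu
  · rintro u (hu | hu)
    · exact hM u hu
    · rw [← norm_neg]
      exact hM _ hu
  · intro u hu i
    -- sign of `u`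
    obtain ⟨w, hw, σ, hσ, huw⟩ : ∃ w ∈ U, ∃ σ : ℝ, (σ = 1 ∨ σ = -1) ∧ ∀ x, u x = σ * w x := by
      rcases hu with hu | hu
      · exact ⟨u, hu, 1, Or.inl rfl, fun x => (one_mul _).symm⟩
      · refine ⟨-u, hu, -1, Or.inr rfl, fun x => ?_⟩
        rw [neg_apply]
        ring
    obtain ⟨c, w', hw', hc, h1, h2⟩ := h.inv w hw i
    have hσ0 : σ ≠ 0 := by rcases hσ with h | h <;> rw [h] <;> norm_num
    have hker : ∀ x, u (A i x) = 0 → ‖A i x‖ ≤ (θ + 1) / 2 * |c| * ‖x‖ := fun x hx => by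
      have h3 : ‖A i x‖ ≤ θ * |c| * ‖x‖ := by
        apply h2
        rw [huw] at hx
        exact (mul_eq_zero.1 hx).resolve_left hσ0
      refine h3.trans ?_
      have h4 : 0 ≤ |c| * ‖x‖ := by positivity
      nlinarith
    rcases le_total 0 (σ * c) with hs | hs
    · refine ⟨|c|, w', Or.inl hw', hc, fun x => ?_, hker⟩
      rw [huw, h1, ← mul_assoc]
      congr 1
      rcases hσ with h | h <;> rw [h] at hs ⊢
      · rw [one_mul] at hs ⊢
        rw [abs_of_nonneg hs]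
      · rw [abs_of_nonpos (by linarith)]
        ring
    · refine ⟨|c|, -w', Or.inr (by simpa using hw'), hc, fun x => ?_, hker⟩
      rw [huw, h1, ← mul_assoc, neg_apply, mul_neg, ← neg_mul]
      congr 1
      rcases hσ with h | h <;> rw [h] at hs ⊢
      · rw [one_mul] at hs ⊢
        rw [abs_of_nonpos hs]
        ring
      · rw [abs_of_nonneg (by linarith)]
        ring

private theorem exists_unit {v : E →L[ℝ] ℝ} {m : ℝ} (hm : 0 < m) (hv : m ≤ ‖v‖) :
    ∃ e : E, v e = 1 ∧ ‖e‖ ≤ 2 / m := by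
  obtain ⟨z, hz1, hz2⟩ := ContinuousLinearMap.exists_lt_apply_of_lt_opNorm v
    (show m / 2 < ‖v‖ by linarith)
  have h0 : v z ≠ 0 := by
    intro h
    rw [h, norm_zero] at hz2
    linarith
  refine ⟨(v z)⁻¹ • z, ?_, ?_⟩
  · rw [map_smul, smul_eq_mul, inv_mul_cancel₀ h0]
  · rw [norm_smul, norm_inv]
    have h1 : 0 < ‖v z‖ := by linarith
    rw [inv_mul_le_iff₀ h1]
    have h2 : 1 ≤ ‖v z‖ * (2 / m) := by
      rw [mul_div_assoc', le_div_iff₀ hm]
      linarith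
    linarith

variable {A : ι → E →L[ℝ] E} {t : ι → E} {F : Set E} {V : Set (E →L[ℝ] ℝ)} {a θ m M κ ρ : ℝ}

private theorem le_hgt (hF : IsSelfAffineSet A t F) (i : ι) (u : E →L[ℝ] ℝ) {y : E} (hy : y ∈ F) :
    u (A i y + t i) ≤ hgt A t F i u := by
  apply le_csSup
  · exact (hF.2.1.image (by fun_prop)).bddAbove
  · exact ⟨y, hy, rfl⟩

private theorem hgt_le (hF : IsSelfAffineSet A t F) (i : ι) (u : E →L[ℝ] ℝ) {B : ℝ}
    (h : ∀ y ∈ F, u (A i y + t i) ≤ B) : hgt A t F i u ≤ B := by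
  apply csSup_le (hF.1.image _)
  rintro _ ⟨y, hy, rfl⟩
  exact h y hy

private theorem piece_mem (hF : IsSelfAffineSet A t F) (i : ι) {y : E} (hy : y ∈ F) :
    A i y + t i ∈ F := by
  rw [hF.2.2]
  exact Set.mem_iUnion.2 ⟨i, y, hy, rfl⟩

private theorem exists_piece (hF : IsSelfAffineSet A t F) {y : E} (hy : y ∈ F) :
    ∃ i, ∃ z ∈ F, A i z + t i = y := by
  rw [hF.2.2] at hy
  obtain ⟨i, z, hz, h⟩ := Set.mem_iUnion.1 hy
  exact ⟨i, z, hz, h⟩

/-- The state of the induction. -/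
private structure St (A : ι → E →L[ℝ] E) (t : ι → E) (F : Set E) (V : Set (E →L[ℝ] ℝ))
    (a θ m κ ρ : ℝ) (x0 : E) (v0 : E →L[ℝ] ℝ) (n : ℕ) (L : E →L[ℝ] E) (s : E) (C : ℝ)
    (v : E →L[ℝ] ℝ) (x e : E) : Prop where
  hv : v ∈ V
  hx : x ∈ F
  hmax : ∀ y ∈ F, v y ≤ v x
  x0eq : x0 = L x + s
  hC : 0 < C
  comm : ∀ y, v0 (L y) = C * v y
  sep : ∀ y ∈ F, v0 (x0 - y) < κ * ‖v0.comp L‖ → ∃ y' ∈ F, y = L y' + s
  ker : ∀ z, v z = 0 → ‖L z‖ ≤ θ ^ n * C * ‖z‖
  he : v e = 1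
  he' : ‖e‖ ≤ 2 / m
  hLe : ‖L e‖ ≤ (2 / m + 2 / m * (1 / a + 1) * ∑ k ∈ Finset.range n, θ ^ k) * C
  small : ‖v0.comp L‖ ≤ ‖v0‖ * ρ ^ n

private theorem st_zero (hV : SFam A V a θ m M) {v0 : E →L[ℝ] ℝ}
    (hv0 : v0 ∈ V) {x0 : E} (hx0 : x0 ∈ F) (hmax : ∀ y ∈ F, v0 y ≤ v0 x0) :
    ∃ L s C v x e, St A t F V a θ m κ ρ x0 v0 0 L s C v x e := by
  obtain ⟨e, he, he'⟩ := exists_unit hV.m_pos (hV.lower v0 hv0)
  refine ⟨ContinuousLinearMap.id ℝ E, 0, 1, v0, x0, e, hv0, hx0, hmax, ?_, one_pos, ?_, ?_, ?_, he,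
    he', ?_, ?_⟩
  · simp
  · intro y
    simp
  · intro y hy _
    exact ⟨y, hy, by simp⟩
  · intro z _
    simp
  · simpa using he'
  · rw [ContinuousLinearMap.comp_id, pow_zero, mul_one]

private theorem norm_comp {n : ℕ} {L : E →L[ℝ] E} {s : E} {C : ℝ} {v v0 : E →L[ℝ] ℝ}
    {x e x0 : E} (h : St A t F V a θ m κ ρ x0 v0 n L s C v x e) : ‖v0.comp L‖ = C * ‖v‖ := by
  have h1 : v0.comp L = C • v := by
    ext y
    simpa using h.comm y
  rw [h1, norm_smul, Real.norm_of_nonneg h.hC.le]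

private theorem st_succ (hF : IsSelfAffineSet A t F) (hA : ∀ i, ‖A i‖ ≤ ρ) (hρ : ρ ≤ 1)
    (hV : SFam A V a θ m M) {γ : ℝ} (hM : 0 < M)
    (hκ : κ = γ / M) (hγ : 0 < γ)
    (hgap : ∀ u ∈ V, ∀ i j, i ≠ j → γ ≤ |hgt A t F i u - hgt A t F j u|) {n : ℕ}
    {L : E →L[ℝ] E} {s : E} {C : ℝ} {v v0 : E →L[ℝ] ℝ} {x e x0 : E}
    (h : St A t F V a θ m κ ρ x0 v0 n L s C v x e) :
    ∃ L s C v x e, St A t F V a θ m κ ρ x0 v0 (n + 1) L s C v x e := by
  obtain ⟨i, x', hx', hxi⟩ := exists_piece hF h.hx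
  obtain ⟨c, v', hv', hc, h1, h2⟩ := hV.inv v h.hv i
  obtain ⟨e', he', hen'⟩ := exists_unit hV.m_pos (hV.lower v' hv')
  have ha := hV.pos
  have hc0 : 0 < c := by linarith
  have hκ0 : 0 < κ := by rw [hκ]; positivity
  have hm0 := hV.m_pos
  have hθ0 := hV.θ_pos
  have hnorm : ‖v0.comp (L.comp (A i))‖ ≤ ‖v0.comp L‖ * ρ := by
    have h3 : v0.comp (L.comp (A i)) = (v0.comp L).comp (A i) := rfl
    rw [h3]
    exact (ContinuousLinearMap.opNorm_comp_le _ _).trans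
      (mul_le_mul_of_nonneg_left (hA i) (norm_nonneg _))
  have hρ0 : 0 ≤ ρ := (norm_nonneg _).trans (hA i)
  have hnorm' : ‖v0.comp (L.comp (A i))‖ ≤ ‖v0.comp L‖ :=
    hnorm.trans (mul_le_of_le_one_right (norm_nonneg _) hρ)
  refine ⟨L.comp (A i), L (t i) + s, C * c, v', x', e', hv', hx', ?_, ?_, by
    have := h.hC
    positivity, ?_, ?_, ?_, he', hen', ?_, ?_⟩
  · intro y hy
    have h3 := h.hmax _ (piece_mem hF i hy)
    rw [← hxi, map_add, map_add, h1, h1] at h3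
    have h4 : c * v' y ≤ c * v' x' := by linarith
    exact le_of_mul_le_mul_left h4 hc0
  · rw [h.x0eq, ← hxi, map_add, ContinuousLinearMap.comp_apply]
    abel
  · intro y
    rw [ContinuousLinearMap.comp_apply, h.comm, h1]
    ring
  · intro y hy hyy
    obtain ⟨y1, hy1, rfl⟩ := h.sep y hy (hyy.trans_le (mul_le_mul_of_nonneg_left hnorm' hκ0.le))
    have h3 : v0 (x0 - (L y1 + s)) = C * (v x - v y1) := by
      rw [h.x0eq, show L x + s - (L y1 + s) = L (x - y1) by rw [map_sub]; abel, h.comm, map_sub]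
    have h4 : κ * ‖v0.comp L‖ ≤ γ * C := by
      rw [norm_comp h, hκ, div_mul_eq_mul_div, div_le_iff₀ hM]
      have h5 := hV.upper v h.hv
      have h6 := h.hC
      have h7 : γ * (C * ‖v‖) ≤ γ * (C * M) := by gcongr
      linarith
    have h5 : C * (v x - v y1) < γ * C := by
      rw [← h3]
      exact (hyy.trans_le (mul_le_mul_of_nonneg_left hnorm' hκ0.le)).trans_le h4
    have h6 : v x - v y1 < γ := by
      have := h.hC
      rw [mul_comm γ C] at h5
      exact lt_of_mul_lt_mul_left h5 this.le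
    obtain ⟨j, y2, hy2, hy2j⟩ := exists_piece hF hy1
    have h7 : j = i := by
      by_contra hji
      have h8 := hgap v h.hv i j (Ne.symm hji)
      have h9 : v x ≤ hgt A t F i v := by
        rw [← hxi]
        exact le_hgt hF i v hx'
      have h10 : hgt A t F j v ≤ v x := hgt_le hF j v fun y hy => h.hmax _ (piece_mem hF j hy)
      have h11 : hgt A t F i v ≤ v x := hgt_le hF i v fun y hy => h.hmax _ (piece_mem hF i hy)
      have h12 : v y1 ≤ hgt A t F j v := by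
        rw [← hy2j]
        exact le_hgt hF j v hy2
      rw [abs_of_nonneg (by linarith)] at h8
      linarith
    subst h7
    refine ⟨y2, hy2, ?_⟩
    rw [← hy2j, map_add, ContinuousLinearMap.comp_apply]
    abel
  · intro z hz
    have h3 : v (A i z) = 0 := by rw [h1, hz, mul_zero]
    have h4 := h.ker _ h3
    have h5 := h2 z h3
    rw [ContinuousLinearMap.comp_apply]
    have h6 := h.hC
    calc ‖L (A i z)‖ ≤ θ ^ n * C * ‖A i z‖ := h4
      _ ≤ θ ^ n * C * (θ * c * ‖z‖) := by gcongr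
      _ = _ := by ring
  · have h3 : v (A i e' - c • e) = 0 := by
      rw [map_sub, h1, he', map_smul, h.he, smul_eq_mul]
      ring
    have h4 := h.ker _ h3
    have h5 : ‖A i e' - c • e‖ ≤ c * (2 / m * (1 / a + 1)) := by
      have h6 : ‖A i e'‖ ≤ 2 / m := by
        calc ‖A i e'‖ ≤ ‖A i‖ * ‖e'‖ := (A i).le_opNorm _
          _ ≤ 1 * (2 / m) := mul_le_mul ((hA i).trans hρ) hen' (norm_nonneg _) zero_le_one
          _ = _ := one_mul _
      have h7 : ‖c • e‖ ≤ c * (2 / m) := by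
        rw [norm_smul, Real.norm_of_nonneg hc0.le]
        exact mul_le_mul_of_nonneg_left h.he' hc0.le
      have h8 : 1 ≤ c * (1 / a) := by
        rw [mul_one_div, le_div_iff₀ ha]
        linarith
      have h9 : 0 < 2 / m := by positivity
      calc ‖A i e' - c • e‖ ≤ ‖A i e'‖ + ‖c • e‖ := norm_sub_le _ _
        _ ≤ 1 * (2 / m) + c * (2 / m) := by linarith
        _ ≤ c * (1 / a) * (2 / m) + c * (2 / m) := by gcongr
        _ = _ := by ring
    have h6 : L (A i e') = c • L e + L (A i e' - c • e) := by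
      rw [map_sub, map_smul]
      abel
    have h7 := h.hLe
    have h8 := h.hC
    rw [ContinuousLinearMap.comp_apply, h6, Finset.sum_range_succ]
    calc ‖c • L e + L (A i e' - c • e)‖ ≤ ‖c • L e‖ + ‖L (A i e' - c • e)‖ := norm_add_le _ _
      _ ≤ c * ((2 / m + 2 / m * (1 / a + 1) * ∑ k ∈ Finset.range n, θ ^ k) * C) +
          θ ^ n * C * (c * (2 / m * (1 / a + 1))) := by
        apply add_le_add
        · rw [norm_smul, Real.norm_of_nonneg hc0.le]
          exact mul_le_mul_of_nonneg_left h7 hc0.le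
        · exact h4.trans (mul_le_mul_of_nonneg_left h5 (by positivity))
      _ = _ := by ring
  · calc ‖v0.comp (L.comp (A i))‖ ≤ ‖v0.comp L‖ * ρ := hnorm
      _ ≤ ‖v0‖ * ρ ^ n * ρ := mul_le_mul_of_nonneg_right h.small hρ0
      _ = _ := by rw [pow_succ]; ring

private theorem st_all (hF : IsSelfAffineSet A t F) (hA : ∀ i, ‖A i‖ ≤ ρ) (hρ : ρ ≤ 1)
    (hV : SFam A V a θ m M) {γ : ℝ} (hM : 0 < M) (hκ : κ = γ / M) (hγ : 0 < γ)
    (hgap : ∀ u ∈ V, ∀ i j, i ≠ j → γ ≤ |hgt A t F i u - hgt A t F j u|)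
    {v0 : E →L[ℝ] ℝ} (hv0 : v0 ∈ V) {x0 : E} (hx0 : x0 ∈ F) (hmax : ∀ y ∈ F, v0 y ≤ v0 x0)
    (n : ℕ) : ∃ L s C v x e, St A t F V a θ m κ ρ x0 v0 n L s C v x e := by
  induction n with
  | zero => exact st_zero hV hv0 hx0 hmax
  | succ n ih =>
    obtain ⟨L, s, C, v, x, e, h⟩ := ih
    exact st_succ hF hA hρ hV hM hκ hγ hgap h

private theorem cover_seg (F' : Set E) (x0 w : E) (T δ r : ℝ) (hδ : 0 < δ)
    (hw : δ * ‖w‖ ≤ r / 2) (h : ∀ y ∈ F', ∃ τ : ℝ, |τ| ≤ T ∧ ‖y - x0 - τ • w‖ ≤ r / 4)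
    (hT : 0 ≤ T) :
    ∃ J : ℕ, (J : ℝ) ≤ 2 * T / δ + 1 ∧ coverNum r F' ≤ J := by
  refine ⟨⌊2 * T / δ⌋₊ + 1, ?_, ?_⟩
  · push_cast
    have := Nat.floor_le (show 0 ≤ 2 * T / δ by positivity)
    linarith
  · apply coverNum_le r F' _ (fun j => {y | ∃ τ : ℝ, -T + (j : ℕ) * δ ≤ τ ∧
      τ ≤ -T + ((j : ℕ) + 1) * δ ∧ ‖y - x0 - τ • w‖ ≤ r / 4})
    · intro j
      apply Metric.ediam_le
      rintro y ⟨τ, h1, h2, h3⟩ y' ⟨τ', h1', h2', h3'⟩
      rw [edist_dist]
      apply ENNReal.ofReal_le_ofReal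
      rw [dist_eq_norm]
      have h4 : y - y' = (y - x0 - τ • w) - (y' - x0 - τ' • w) + (τ - τ') • w := by
        rw [sub_smul]
        abel
      have h5 : ‖(τ - τ') • w‖ ≤ δ * ‖w‖ := by
        rw [norm_smul]
        apply mul_le_mul_of_nonneg_right _ (norm_nonneg _)
        rw [Real.norm_eq_abs, abs_le]
        constructor <;> nlinarith
      rw [h4]
      calc ‖y - x0 - τ • w - (y' - x0 - τ' • w) + (τ - τ') • w‖
          ≤ ‖y - x0 - τ • w‖ + ‖y' - x0 - τ' • w‖ + ‖(τ - τ') • w‖ :=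
            (norm_add_le _ _).trans (by gcongr; exact norm_sub_le _ _)
        _ ≤ r := by linarith
    · intro y hy
      obtain ⟨τ, hτ, h1⟩ := h y hy
      rw [abs_le] at hτ
      have h2 : 0 ≤ (τ + T) / δ := div_nonneg (by linarith) hδ.le
      have h3 : ⌊(τ + T) / δ⌋₊ < ⌊2 * T / δ⌋₊ + 1 := by
        apply Nat.lt_succ_of_le
        apply Nat.floor_le_floor
        apply div_le_div_of_nonneg_right _ hδ.le
        linarith
      refine Set.mem_iUnion.2 ⟨⟨_, h3⟩, τ, ?_, ?_, h1⟩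
      · have h4 := Nat.floor_le h2
        rw [le_div_iff₀ hδ] at h4
        simp only
        linarith
      · have h4 := (Nat.lt_floor_add_one ((τ + T) / δ)).le
        rw [div_le_iff₀ hδ] at h4
        simp only
        linarith

private theorem geom_le {θ : ℝ} (h0 : 0 < θ) (h1 : θ < 1) (n : ℕ) :
    ∑ k ∈ Finset.range n, θ ^ k ≤ 1 / (1 - θ) := by
  rw [one_div]
  have h2 : Summable fun k : ℕ => θ ^ k := summable_geometric_of_lt_one h0.le h1
  rw [← tsum_geometric_of_lt_one h0.le h1]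
  exact h2.sum_le_tsum _ fun k _ => by positivity

private theorem st_cover (hF : IsSelfAffineSet A t F)
    (hV : SFam A V a θ m M) (hκ : 0 < κ) (hΔ : 0 < Metric.diam F) {n : ℕ}
    {L : E →L[ℝ] E} {s : E} {C : ℝ} {v v0 : E →L[ℝ] ℝ} {x e x0 : E} (hv0 : v0 ∈ V)
    (h : St A t F V a θ m κ ρ x0 v0 n L s C v x e) {b K1 T K4 : ℝ}
    (hb : b = 2 / m + 2 / m * (1 / a + 1) * (1 / (1 - θ)))
    (hT : T = M * Metric.diam F) (hK1 : K1 = Metric.diam F + T * (2 / m))
    (hK4 : K4 = κ * m / (8 * ‖v0‖ * K1)) :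
    ∃ r R : ℝ, ∃ J : ℕ, 0 < r ∧ K4 / θ ^ n ≤ R / r ∧ R ≤ κ * ρ ^ n / 2 ∧
      coverNum r (Metric.closedBall x0 R ∩ F) ≤ J ∧ (J : ℝ) ≤ T * b / (K1 * K4) * (R / r) + 1 := by
  have hm := hV.m_pos
  have hθ0 := hV.θ_pos
  have hθ1 := hV.lt_one
  have ha := hV.pos
  have hC := h.hC
  have hv1 := hV.lower v h.hv
  have hv2 := hV.upper v h.hv
  have hM : 0 < M := by linarith
  have hv01 := hV.lower v0 hv0
  have hv00 : 0 < ‖v0‖ := by linarith
  have hvp : 0 < ‖v‖ := by linarith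
  have hTp : 0 < T := by rw [hT]; positivity
  have hK1p : 0 < K1 := by rw [hK1]; positivity
  have hK4p : 0 < K4 := by rw [hK4]; positivity
  have h1θ : 0 < 1 - θ := by linarith
  have hbp : 0 < b := by rw [hb]; positivity
  have hn : 0 < θ ^ n := by positivity
  have hN := norm_comp h
  set R := κ * ‖v0.comp L‖ / (2 * ‖v0‖) with hR
  set r := 4 * θ ^ n * C * K1 with hr
  have hrp : 0 < r := by positivity
  have hq : R / r = κ * ‖v‖ / (8 * ‖v0‖ * K1) / θ ^ n := by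
    rw [hR, hr, hN]
    field_simp
    ring
  have hq1 : K4 / θ ^ n ≤ R / r := by
    rw [hq, hK4]
    gcongr
  have hcov := cover_seg (Metric.closedBall x0 R ∩ F) x0 (L e) T (r / (2 * b * C)) r
    (by positivity) (by
      have h1 : ‖L e‖ ≤ b * C := by
        refine h.hLe.trans ?_
        rw [hb]
        have h2 := geom_le hθ0 hθ1 n
        gcongr
      calc r / (2 * b * C) * ‖L e‖ ≤ r / (2 * b * C) * (b * C) := by gcongr
        _ = r / 2 := by
          field_simp) (by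
      rintro y ⟨hyb, hyF⟩
      have h1 : v0 (x0 - y) < κ * ‖v0.comp L‖ := by
        have h2 : v0 (x0 - y) ≤ ‖v0‖ * R := by
          calc v0 (x0 - y) ≤ ‖v0 (x0 - y)‖ := Real.le_norm_self _
            _ ≤ ‖v0‖ * ‖x0 - y‖ := v0.le_opNorm _
            _ ≤ ‖v0‖ * R := by
              gcongr
              rw [← dist_eq_norm, dist_comm]
              exact Metric.mem_closedBall.1 hyb
        have h3 : ‖v0‖ * R = κ * ‖v0.comp L‖ / 2 := by
          rw [hR]
          field_simp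
        have h4 : 0 < κ * ‖v0.comp L‖ := by rw [hN]; positivity
        linarith
      obtain ⟨y', hy', hyy⟩ := h.sep y hyF h1
      have hz : ‖y' - x‖ ≤ Metric.diam F := by
        rw [← dist_eq_norm]
        exact Metric.dist_le_diam_of_mem hF.2.1.isBounded hy' h.hx
      have hvz : |v (y' - x)| ≤ T := by
        rw [hT, ← Real.norm_eq_abs]
        calc ‖v (y' - x)‖ ≤ ‖v‖ * ‖y' - x‖ := v.le_opNorm _
          _ ≤ M * Metric.diam F := mul_le_mul hv2 hz (norm_nonneg _) hM.le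
      refine ⟨v (y' - x), hvz, ?_⟩
      have h2 : v ((y' - x) - v (y' - x) • e) = 0 := by
        rw [map_sub, map_smul, h.he, smul_eq_mul, mul_one, sub_self]
      have h3 := h.ker _ h2
      have h4 : y - x0 - v (y' - x) • L e = L ((y' - x) - v (y' - x) • e) := by
        have h7 : L ((y' - x) - v (y' - x) • e) = L y' - L x - v (y' - x) • L e := by
          rw [map_sub L, map_smul L, map_sub L]
        rw [h7, hyy, h.x0eq]
        abel
      rw [h4]
      refine h3.trans ?_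
      have h5 : ‖(y' - x) - v (y' - x) • e‖ ≤ K1 := by
        refine (norm_sub_le _ _).trans ?_
        rw [hK1, norm_smul, Real.norm_eq_abs]
        have h6 := h.he'
        gcongr
      calc θ ^ n * C * ‖(y' - x) - v (y' - x) • e‖ ≤ θ ^ n * C * K1 := by gcongr
        _ = r / 4 := by rw [hr]; ring) hTp.le
  obtain ⟨J, hJ1, hJ2⟩ := hcov
  refine ⟨r, R, J, hrp, hq1, ?_, hJ2, ?_⟩
  · have h1 := h.small
    rw [hR, div_le_iff₀ (by positivity)]
    calc κ * ‖v0.comp L‖ ≤ κ * (‖v0‖ * ρ ^ n) := by gcongr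
      _ = _ := by ring
  · refine hJ1.trans ?_
    have h1 : 2 * T / (r / (2 * b * C)) = T * b / K1 * (1 / θ ^ n) := by
      rw [hr]
      field_simp
      ring
    have h2 : T * b / (K1 * K4) * (K4 / θ ^ n) = T * b / K1 * (1 / θ ^ n) := by
      field_simp
    rw [h1, ← h2]
    gcongr

end det

section final

variable {E : Type} [NormedAddCommGroup E] [NormedSpace ℝ E] {ι : Type}

/-- If the heights of the pieces in all directions of `U` and `-U` are pairwise different, with a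
uniform gap, the self-affine set has lower dimension at most `1`. -/
theorem lowerDim_le_one {A : ι → E →L[ℝ] E} {t : ι → E} {F : Set E} {U : Set (E →L[ℝ] ℝ)}
    {a θ ρ : ℝ} [Nontrivial ι] (hF : IsSelfAffineSet A t F) (hA : ∀ i, ‖A i‖ ≤ ρ) (hρ : ρ < 1)
    (hU : DomFam A U a θ)
    (hgap : ∃ γ > 0, ∀ u ∈ U, ∀ i j, i ≠ j → γ ≤ |hgt A t F i u - hgt A t F j u| ∧
      γ ≤ |hgt A t F i (-u) - hgt A t F j (-u)|) : lowerDim F ≤ 1 := by
  obtain ⟨γ, hγ, hgap⟩ := hgap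
  obtain ⟨m, M, hV⟩ := sfam_of hU
  obtain ⟨v0, hv0U⟩ := hU.nonempty
  have hgap' : ∀ u ∈ U ∪ {v | -v ∈ U}, ∀ i j, i ≠ j → γ ≤ |hgt A t F i u - hgt A t F j u| := by
    rintro u (hu | hu) i j hij
    · exact (hgap u hu i j hij).1
    · have := (hgap (-u) hu i j hij).2
      rwa [neg_neg] at this
  set V := U ∪ {v | -v ∈ U} with hVdef
  have hv0 : v0 ∈ V := Or.inl hv0U
  have hm := hV.m_pos
  have hM : 0 < M := by
    have h1 := hV.lower v0 hv0
    have h2 := hV.upper v0 hv0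
    linarith
  obtain ⟨x0, hx0, hmax⟩ := hF.2.1.exists_isMaxOn hF.1 v0.continuous.continuousOn
  have hmax' : ∀ y ∈ F, v0 y ≤ v0 x0 := fun y hy => hmax hy
  -- the diameter is positive
  have hΔ : 0 < Metric.diam F := by
    by_contra hcon
    have h0 : Metric.diam F = 0 := le_antisymm (not_lt.1 hcon) Metric.diam_nonneg
    obtain ⟨i, j, hij⟩ := exists_pair_ne ι
    have h1 : ∀ y ∈ F, y = x0 := fun y hy => by
      have := Metric.dist_le_diam_of_mem hF.2.1.isBounded hy hx0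
      rw [h0] at this
      exact dist_le_zero.1 this
    have h2 : ∀ i, hgt A t F i v0 = v0 x0 := fun i => by
      apply le_antisymm
      · exact hgt_le hF i v0 fun y hy => hmax' _ (piece_mem hF i hy)
      · have h3 := le_hgt hF i v0 hx0
        rwa [h1 _ (piece_mem hF i hx0)] at h3
    have h3 := hgap' v0 hv0 i j hij
    rw [h2, h2, sub_self, abs_zero] at h3
    linarith
  have hκ : 0 < γ / M := by positivity
  have hθ0 := hV.θ_pos
  have hθ1 := hV.lt_one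
  set θ' := (θ + 1) / 2 with hθ'
  have hρ0 : 0 ≤ ρ := by
    obtain ⟨i, _⟩ := exists_pair_ne ι
    exact (norm_nonneg _).trans (hA i)
  have hv01 := hV.lower v0 hv0
  have hv00 : 0 < ‖v0‖ := by linarith
  have ha := hV.pos
  have h1θ : 0 < 1 - θ' := by linarith
  obtain ⟨T, hT⟩ : ∃ T, T = M * Metric.diam F := ⟨_, rfl⟩
  obtain ⟨K1, hK1⟩ : ∃ K1, K1 = Metric.diam F + T * (2 / m) := ⟨_, rfl⟩
  obtain ⟨K4, hK4⟩ : ∃ K4, K4 = γ / M * m / (8 * ‖v0‖ * K1) := ⟨_, rfl⟩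
  obtain ⟨b, hb⟩ : ∃ b, b = 2 / m + 2 / m * (1 / a + 1) * (1 / (1 - θ')) := ⟨_, rfl⟩
  have hTp : 0 < T := by rw [hT]; positivity
  have hK1p : 0 < K1 := by rw [hK1]; positivity
  have hK4p : 0 < K4 := by rw [hK4]; positivity
  have hbp : 0 < b := by rw [hb]; positivity
  refine iSup₂_le fun s hs => ?_
  obtain ⟨c, hc, hcs⟩ := hs
  by_contra hcon
  have hs1 : 1 < (s : ℝ) := by
    have h1 : (1 : ℝ≥0∞) < s := not_le.1 hcon
    exact_mod_cast h1
  -- the scales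
  have hlim1 : Filter.Tendsto (fun n : ℕ => K4 / θ' ^ n) Filter.atTop Filter.atTop := by
    have h1 : Filter.Tendsto (fun n : ℕ => (1 / θ') ^ n) Filter.atTop Filter.atTop :=
      tendsto_pow_atTop_atTop_of_one_lt ((one_lt_div hθ0).2 hθ1)
    have h2 := h1.const_mul_atTop hK4p
    refine h2.congr fun n => ?_
    rw [one_div, inv_pow]
    rfl
  have hlim2 : Filter.Tendsto (fun n : ℕ => c * (K4 / θ' ^ n) ^ ((s : ℝ) - 1)) Filter.atTop
      Filter.atTop :=
    ((tendsto_rpow_atTop (by linarith)).comp hlim1).const_mul_atTop hc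
  have hlim3 : Filter.Tendsto (fun n : ℕ => γ / M * ρ ^ n / 2) Filter.atTop (nhds 0) := by
    have h1 := (tendsto_pow_atTop_nhds_zero_of_lt_one hρ0 hρ).const_mul (γ / M)
    have h2 := h1.div_const 2
    simpa using h2
  obtain ⟨n, h1, h2, h3⟩ := ((hlim1.eventually_gt_atTop 1).and
    ((hlim2.eventually_gt_atTop (T * b / (K1 * K4) + 1)).and
      (hlim3.eventually_lt_const hΔ))).exists
  obtain ⟨L, s', C, v, x, e, hst⟩ := st_all hF hA hρ.le hV hM rfl hγ hgap' hv0 hx0 hmax' n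
  obtain ⟨r, R, J, hr, hq, hR, hJ1, hJ2⟩ := st_cover hF hV hκ hΔ hv0 hst hb hT hK1 hK4
  have hq1 : 1 < R / r := h1.trans_le hq
  have hrR : r < R := by rwa [lt_div_iff₀ hr, one_mul] at hq1
  have h4 := hcs x0 hx0 r R hr hrR (hR.trans h3.le)
  have h5 : ((coverNum r (Metric.closedBall x0 R ∩ F) : ℕ∞) : ℝ≥0∞) ≤ (J : ℝ≥0∞) := by
    exact_mod_cast hJ1
  have h6 : c * (R / r) ^ (s : ℝ) ≤ J := by
    have h7 := h4.trans h5
    rw [← ENNReal.ofReal_natCast] at h7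
    exact (ENNReal.ofReal_le_ofReal_iff (by positivity)).1 h7
  have hq0 : 0 < R / r := by linarith
  have h7 : (R / r) ^ (s : ℝ) = (R / r) ^ ((s : ℝ) - 1) * (R / r) := by
    rw [← Real.rpow_add_one hq0.ne']
    congr 1
    ring
  have h8 : c * (K4 / θ' ^ n) ^ ((s : ℝ) - 1) ≤ c * (R / r) ^ ((s : ℝ) - 1) := by
    apply mul_le_mul_of_nonneg_left _ hc.le
    apply Real.rpow_le_rpow (by linarith) hq (by linarith)
  have h9 : c * (R / r) ^ ((s : ℝ) - 1) * (R / r) ≤ (T * b / (K1 * K4) + 1) * (R / r) := by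
    calc c * (R / r) ^ ((s : ℝ) - 1) * (R / r) = c * (R / r) ^ (s : ℝ) := by rw [h7]; ring
      _ ≤ J := h6
      _ ≤ T * b / (K1 * K4) * (R / r) + 1 := hJ2
      _ ≤ T * b / (K1 * K4) * (R / r) + 1 * (R / r) := by linarith
      _ = _ := by ring
  have h10 := le_of_mul_le_mul_right h9 hq0
  linarith

end final

end Pool.Agent.MP_b039ef_an
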