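import Pool.Agent.Lib.MP_b039ef_an.Sys

set_option autoImplicit false

namespace Pool.Agent.MP_b039ef_an

open scoped ENNReal NNReal
open MeasureTheory

section fat

variable {d : ℕ} {i0 : Fin d}

theorem gc_abs (a : Fin 3) : |gc a| ≤ 13 / 20 := by
  fin_cases a
  · change |(-13 / 20 : ℝ)| ≤ 13 / 20
    rw [abs_le]; constructor <;> norm_num
  · change |(0 : ℝ)| ≤ 13 / 20
    rw [abs_le]; constructor <;> norm_num
  · change |(13 / 20 : ℝ)| ≤ 13 / 20
    rw [abs_le]; constructor <;> norm_num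

theorem t_abs {t : Ix d → Sp d} (ht : G t) (σ : Fin d → Fin 3) (k : Fin d) :
    |t (some σ) k| ≤ 7 / 10 := by
  have h1 := ht σ k
  have h2 := gc_abs (σ k)
  rw [abs_lt] at h1
  rw [abs_le] at h2 ⊢
  constructor <;> linarith [h1.1, h1.2, h2.1, h2.2]

theorem bound_fat {t : Ix d → Sp d} (ht : G t) (ht0 : ∀ k, |t none k| < 1 / 20) {F : Set (Sp d)}
    (hF : IsSelfAffineSet (Am i0) t F) (x : Sp d) (hx : x ∈ F) (k : Fin d) : |x k| ≤ 7 / 6 := by
  have hcont : ContinuousOn (fun x : Sp d => |x k|) F := by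
    apply Continuous.continuousOn
    exact continuous_abs.comp (by fun_prop)
  obtain ⟨z, hz, hz'⟩ := hF.2.1.exists_isMaxOn hF.1 hcont
  have hz2 : ∀ x ∈ F, |x k| ≤ |z k| := fun x hx => hz' hx
  have hzF := hz
  rw [hF.2.2] at hz
  obtain ⟨i, z', hz'F, hzz⟩ := Set.mem_iUnion.1 hz
  have h1 := hz2 z' hz'F
  have h2 : |z k| ≤ 2 / 5 * |z' k| + 7 / 10 := by
    rw [← hzz]
    cases i with
    | none =>
      have e : (Am i0 none z' + t none) k = cf i0 k * z' k + t none k := rfl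
      simp only [e]
      refine (abs_add_le _ _).trans ?_
      rw [abs_mul, abs_of_pos (cf_pos i0 k)]
      have h3 := (ht0 k).le
      have h4 := mul_le_mul_of_nonneg_right (cf_le i0 k) (abs_nonneg (z' k))
      linarith
    | some σ =>
      have e : (Am i0 (some σ) z' + t (some σ)) k = 2 / 5 * z' k + t (some σ) k := rfl
      simp only [e]
      refine (abs_add_le _ _).trans ?_
      rw [abs_mul, abs_of_pos (by norm_num : (0 : ℝ) < 2 / 5)]
      have h3 := t_abs ht σ k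
      linarith
  have h5 := hz2 x hx
  linarith

theorem exists_sim {t : Ix d → Sp d} (ht : G t) (ht0 : ∀ k, |t none k| < 1 / 20) {F : Set (Sp d)}
    (hF : IsSelfAffineSet (Am i0) t F) (x : Sp d) (hx : x ∈ F) :
    ∃ (σ : Fin d → Fin 3) (x' : Sp d), x' ∈ F ∧ x = Am i0 (some σ) x' + t (some σ) := by
  have hx2 := hx
  rw [hF.2.2] at hx2
  obtain ⟨i, x', hx'F, hxx⟩ := Set.mem_iUnion.1 hx2
  cases i with
  | none =>
    have hc : x ∈ Cube d := by
      intro k
      rw [← hxx]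
      have e : (Am i0 none x' + t none) k = cf i0 k * x' k + t none k := rfl
      simp only [e]
      refine (abs_add_le _ _).trans ?_
      rw [abs_mul, abs_of_pos (cf_pos i0 k)]
      have h3 := (ht0 k).le
      have h4 := mul_le_mul_of_nonneg_right (cf_le i0 k) (abs_nonneg (x' k))
      have h5 := bound_fat ht ht0 hF x' hx'F k
      linarith
    obtain ⟨σ, x'', hx'', hxx'⟩ := cube_cover i0 t ht x hc
    exact ⟨σ, x'', cube_subset ht hF hx'', hxx'⟩
  | some σ => exact ⟨σ, x', hx'F, hxx.symm⟩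

theorem corkscrew {t : Ix d → Sp d} (ht : G t) (ht0 : ∀ k, |t none k| < 1 / 20) {F : Set (Sp d)}
    (hF : IsSelfAffineSet (Am i0) t F) (C : ℝ) (hC : ∀ x ∈ F, ‖x‖ ≤ C) (n : ℕ) :
    ∀ x ∈ F, ∃ y, dist y x ≤ C * (2 / 5) ^ n ∧ Metric.closedBall y ((2 / 5) ^ n) ⊆ F := by
  induction n with
  | zero =>
    intro x hx
    refine ⟨0, ?_, ?_⟩
    · rw [dist_eq_norm, zero_sub, norm_neg, pow_zero, mul_one]
      exact hC x hx
    · rw [pow_zero]
      exact ball_subset_cube.trans (cube_subset ht hF)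
  | succ n ih =>
    intro x hx
    obtain ⟨σ, x', hx', rfl⟩ := exists_sim ht ht0 hF x hx
    obtain ⟨y, hy, hy'⟩ := ih x' hx'
    refine ⟨Am i0 (some σ) y + t (some σ), ?_, ?_⟩
    · rw [dist_add_right, Am_some, Am_some, dist_smul₀]
      rw [pow_succ, Real.norm_eq_abs, abs_of_pos (by norm_num : (0 : ℝ) < 2 / 5)]
      linarith
    · intro z hz
      have h1 : z = Am i0 (some σ) ((5 / 2 : ℝ) • (z - t (some σ))) + t (some σ) := by
        rw [Am_some, smul_smul]; norm_num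
      rw [h1]
      apply image_mem hF
      apply hy'
      rw [Metric.mem_closedBall] at hz ⊢
      rw [h1, dist_add_right, Am_some, Am_some, dist_smul₀, Real.norm_eq_abs,
        abs_of_pos (by norm_num : (0 : ℝ) < 2 / 5), pow_succ] at hz
      linarith

theorem lower_fat {t : Ix d → Sp d} (ht : G t) (ht0 : ∀ k, |t none k| < 1 / 20) {F : Set (Sp d)}
    (hF : IsSelfAffineSet (Am i0) t F) : (d : ℝ≥0∞) ≤ lowerDim F := by
  obtain ⟨C, hC0, hC⟩ : ∃ C : ℝ, 0 ≤ C ∧ ∀ x ∈ F, ‖x‖ ≤ C := by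
    obtain ⟨C, hC⟩ := hF.2.1.isBounded.exists_norm_le
    exact ⟨max C 0, le_max_right _ _, fun x hx => (hC x hx).trans (le_max_left _ _)⟩
  set D := Metric.diam F with hD
  have hD0 : 0 ≤ D := Metric.diam_nonneg
  set c : ℝ := min (2 / 5 / (C + 1)) (1 / (D + 1)) with hc
  have hc0 : 0 < c := lt_min (by positivity) (by positivity)
  have hcp : (((d : ℝ≥0) : ℝ≥0∞)) = d := by simp
  rw [← hcp]
  refine le_iSup₂_of_le (d : ℝ≥0) ⟨c ^ d, by positivity, ?_⟩ le_rfl
  intro x hx r R hr hrR hRD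
  have hR : 0 < R := hr.trans hrR
  -- choose the scale
  have hex : ∃ n : ℕ, (C + 1) * (2 / 5) ^ n ≤ R := by
    obtain ⟨n, hn⟩ := exists_pow_lt_of_lt_one (show 0 < R / (C + 1) by positivity)
      (by norm_num : (2 / 5 : ℝ) < 1)
    refine ⟨n, ?_⟩
    rw [lt_div_iff₀ (by positivity)] at hn
    linarith
  classical
  set n := Nat.find hex with hn
  have hn1 : (C + 1) * (2 / 5) ^ n ≤ R := Nat.find_spec hex
  have hn2 : c * R ≤ (2 / 5) ^ n := by
    rcases Nat.eq_zero_or_pos n with h0 | h0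
    · rw [h0, pow_zero]
      have h1 : c ≤ 1 / (D + 1) := min_le_right _ _
      calc c * R ≤ 1 / (D + 1) * (D + 1) :=
            mul_le_mul h1 (by linarith) hR.le (by positivity)
        _ = 1 := by field_simp
    · have h1 : ¬ ((C + 1) * (2 / 5) ^ (n - 1) ≤ R) := Nat.find_min hex (by omega)
      push Not at h1
      have h2 : c ≤ 2 / 5 / (C + 1) := min_le_left _ _
      have h3 : (2 / 5 : ℝ) ^ n = (2 / 5) ^ (n - 1) * (2 / 5) := by
        rw [← pow_succ]
        congr 1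
        omega
      rw [h3]
      calc c * R ≤ 2 / 5 / (C + 1) * ((C + 1) * (2 / 5) ^ (n - 1)) :=
            mul_le_mul h2 h1.le hR.le (by positivity)
        _ = (2 / 5) ^ (n - 1) * (2 / 5) := by field_simp
  obtain ⟨y, hy, hy'⟩ := corkscrew ht ht0 hF C hC n x hx
  have hsub : Metric.closedBall y ((2 / 5) ^ n) ⊆ Metric.closedBall x R ∩ F := by
    intro z hz
    refine ⟨?_, hy' hz⟩
    rw [Metric.mem_closedBall] at hz ⊢
    have := dist_triangle z y x
    linarith
  have h4 := coverNum_ball (Metric.closedBall x R ∩ F) y ((2 / 5) ^ n) r (by positivity) hr hsub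
  refine le_trans (ENNReal.ofReal_le_ofReal ?_) h4
  have h5 : (R / r) ^ (((d : ℝ≥0) : ℝ)) = (R / r) ^ d := by
    rw [NNReal.coe_natCast, Real.rpow_natCast]
  rw [h5, ← mul_pow]
  apply pow_le_pow_left₀ (by positivity)
  rw [← mul_div_assoc]
  exact div_le_div_of_nonneg_right hn2 hr.le

/-- Assouad dimension when the cube is contained in the set -/
theorem assouad_ge {t : Ix d → Sp d} (ht : G t) {F : Set (Sp d)}
    (hF : IsSelfAffineSet (Am i0) t F) : (d : ℝ≥0∞) ≤ assouadDim F := by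
  refine le_iInf₂ ?_
  rintro s ⟨C, hC0, hC⟩
  have hsub : Metric.closedBall (0 : Sp d) 1 ⊆ F := ball_subset_cube.trans (cube_subset ht hF)
  have h0 : (0 : Sp d) ∈ F := hsub (Metric.mem_closedBall_self (by norm_num))
  by_contra hcon
  push Not at hcon
  have hs : (s : ℝ) < d := by
    have : (s : ℝ≥0∞) < ((d : ℝ≥0) : ℝ≥0∞) := by simpa using hcon
    have h1 : s < (d : ℝ≥0) := by exact_mod_cast this
    exact_mod_cast h1
  -- for every n, (2^n)^d ≤ C (2^n)^s
  have h1 : ∀ n : ℕ, 1 ≤ n → ((2 : ℝ) ^ n) ^ ((d : ℝ) - s) ≤ C := by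
    intro n hn
    have hr : (0 : ℝ) < 1 / 2 ^ n := by positivity
    have hr1 : (1 : ℝ) / 2 ^ n < 1 := by
      rw [div_lt_one (by positivity)]
      exact one_lt_pow₀ (by norm_num) (by omega)
    have h2 := hC 0 h0 (1 / 2 ^ n) 1 hr hr1
    have h3 := coverNum_ball (Metric.closedBall 0 1 ∩ F) (0 : Sp d) 1 (1 / 2 ^ n) one_pos hr
      (Set.subset_inter le_rfl hsub)
    have h4 := h3.trans h2
    rw [ENNReal.ofReal_le_ofReal_iff (by positivity)] at h4
    rw [one_div_one_div] at h4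
    have h5 : ((2 : ℝ) ^ n) ^ (d : ℝ) ≤ C * ((2 : ℝ) ^ n) ^ (s : ℝ) := by
      rw [Real.rpow_natCast]; exact h4
    rw [Real.rpow_sub (by positivity), div_le_iff₀ (by positivity)]
    exact h5
  have h6 : Filter.Tendsto (fun n : ℕ => ((2 : ℝ) ^ n) ^ ((d : ℝ) - s)) Filter.atTop Filter.atTop :=
    (tendsto_rpow_atTop (by linarith)).comp (tendsto_pow_atTop_atTop_of_one_lt (by norm_num))
  obtain ⟨n, hn, hn'⟩ := ((h6.eventually_gt_atTop C).and (Filter.eventually_ge_atTop 1)).exists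
  exact absurd (h1 n hn') (not_le.2 hn)

end fat

end Pool.Agent.MP_b039ef_an
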