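import Pool.Agent.Lib.MP_b039ef_an.Thin

set_option autoImplicit false

namespace Pool.Agent.MP_b039ef_an

open scoped ENNReal NNReal
open MeasureTheory

section main

variable {d : ℕ}

theorem selfAffine_reindex {E : Type} [NormedAddCommGroup E] [NormedSpace ℝ E] {ι κ : Type}
    (e : ι ≃ κ) (A : κ → E →L[ℝ] E) (t : ι → E) (F : Set E) :
    IsSelfAffineSet (fun i => A (e i)) t F ↔ IsSelfAffineSet A (fun k => t (e.symm k)) F := by
  unfold IsSelfAffineSet
  have h : (⋃ i, (fun x => A (e i) x + t i) '' F) =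
      ⋃ k, (fun x => A k x + t (e.symm k)) '' F := by
    rw [← e.surjective.iUnion_comp]
    simp only [Equiv.symm_apply_apply]
  rw [h]

theorem ae_exists {α : Type} [MeasurableSpace α] {μ : Measure α} {T : Set α} (hT : 0 < μ T)
    {P : α → Prop} (hP : ∀ᵐ t ∂μ, P t) : ∃ t ∈ T, P t := by
  by_contra hcon
  push Not at hcon
  have h1 : T ⊆ {t | ¬ P t} := fun t ht => hcon t ht
  have h2 : μ {t | ¬ P t} = 0 := hP
  exact absurd (measure_mono h1) (not_le.2 (by rw [h2]; exact hT))

/-- target configuration of translations -/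
noncomputable def tc (i0 : Fin d) (a : ℝ) : Ix d → Sp d
  | none => WithLp.toLp 2 fun k => if k = i0 then a else 0
  | some σ => WithLp.toLp 2 fun k => gc (σ k)

theorem open_set {m : ℕ} (e : Fin m ≃ Ix d) (i0 : Fin d) (a : ℝ) :
    0 < volume {t : Fin m → Sp d | G (fun k => t (e.symm k)) ∧
      ∀ k, |t (e.symm none) k - tc i0 a none k| < 1 / 20} := by
  apply IsOpen.measure_pos
  · apply IsOpen.inter
    · have : {t : Fin m → Sp d | G (fun k => t (e.symm k))} =
          ⋂ σ : Fin d → Fin 3, ⋂ k : Fin d, {t | |t (e.symm (some σ)) k - gc (σ k)| < 1 / 20} := by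
        ext t
        simp only [G, Set.mem_iInter]
        rfl
      change IsOpen {t : Fin m → Sp d | G (fun k => t (e.symm k))}
      rw [this]
      apply isOpen_iInter_of_finite
      intro σ
      apply isOpen_iInter_of_finite
      intro k
      apply isOpen_lt _ continuous_const
      fun_prop
    · have : {t : Fin m → Sp d | ∀ k, |t (e.symm none) k - tc i0 a none k| < 1 / 20} =
          ⋂ k : Fin d, {t | |t (e.symm none) k - tc i0 a none k| < 1 / 20} := by
        ext t
        simp only [Set.mem_iInter]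
        rfl
      change IsOpen {t : Fin m → Sp d | ∀ k, |t (e.symm none) k - tc i0 a none k| < 1 / 20}
      rw [this]
      apply isOpen_iInter_of_finite
      intro k
      apply isOpen_lt _ continuous_const
      fun_prop
  · refine ⟨fun i => tc i0 a (e i), ?_, ?_⟩
    · intro σ k
      simp only [Equiv.apply_symm_apply]
      change |gc (σ k) - gc (σ k)| < 1 / 20
      simp
    · intro k
      simp only [Equiv.apply_symm_apply]
      simp

theorem main (d : ℕ) (hd : 2 ≤ d) :
    ∃ (m : ℕ) (A : Fin m → EuclideanSpace ℝ (Fin d) →L[ℝ] EuclideanSpace ℝ (Fin d)),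
      (∀ i, Function.Bijective (A i)) ∧ (∀ i, ‖A i‖ < 1 / 2) ∧
      ∃ F : (Fin m → EuclideanSpace ℝ (Fin d)) → Set (EuclideanSpace ℝ (Fin d)),
        (∀ t K, IsSelfAffineSet A t K ↔ K = F t) ∧
        0 < volume {t | lowerDim (F t) ≤ 1 ∧ (d : ℝ≥0∞) ≤ assouadDim (F t)} ∧
        0 < volume {t | (d : ℝ≥0∞) ≤ lowerDim (F t)} ∧
        ¬ ∃ b, ∀ᵐ t, lowerDim (F t) = b := by
  classical
  let i0 : Fin d := ⟨0, by omega⟩
  let e : Fin (Fintype.card (Ix d)) ≃ Ix d := (Fintype.equivFin (Ix d)).symm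
  let A : Fin (Fintype.card (Ix d)) → Sp d →L[ℝ] Sp d := fun i => Am i0 (e i)
  have hne : Nonempty (Fin (Fintype.card (Ix d))) := ⟨e.symm none⟩
  have hA : ∀ i, ‖A i‖ ≤ 1 / 2 := fun i => (Am_norm i0 (e i)).trans (by norm_num)
  let F : (Fin (Fintype.card (Ix d)) → Sp d) → Set (Sp d) := fun t =>
    (hutchinson A hA t).choose
  have hF : ∀ t, IsSelfAffineSet A t (F t) := fun t => (hutchinson A hA t).choose_spec.1
  have hFu : ∀ t K, IsSelfAffineSet A t K ↔ K = F t := by
    intro t K
    constructor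
    · exact (hutchinson A hA t).choose_spec.2 K
    · rintro rfl
      exact hF t
  have h1 : 0 < volume {t | lowerDim (F t) ≤ 1 ∧ (d : ℝ≥0∞) ≤ assouadDim (F t)} := by
    refine lt_of_lt_of_le (open_set e i0 (-10)) (measure_mono ?_)
    rintro t ⟨ht, ht0⟩
    have h2 := (selfAffine_reindex e (Am i0) t (F t)).1 (hF t)
    have h3 : |t (e.symm none) i0 + 10| < 1 / 20 := by
      have := ht0 i0
      have e1 : tc i0 (-10) none i0 = -10 := by simp [tc]
      rw [e1] at this
      rwa [sub_neg_eq_add] at this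
    exact ⟨lower_thin (by omega) ht h3 h2, assouad_ge ht h2⟩
  have h2 : 0 < volume {t | (d : ℝ≥0∞) ≤ lowerDim (F t)} := by
    refine lt_of_lt_of_le (open_set e i0 0) (measure_mono ?_)
    rintro t ⟨ht, ht0⟩
    have h2 := (selfAffine_reindex e (Am i0) t (F t)).1 (hF t)
    have h3 : ∀ k, |t (e.symm none) k| < 1 / 20 := by
      intro k
      have := ht0 k
      have e1 : tc i0 0 none k = 0 := by simp [tc]
      rwa [e1, sub_zero] at this
    exact lower_fat ht h3 h2
  refine ⟨_, A, fun i => Am_bij i0 (e i), fun i => lt_of_le_of_lt (Am_norm i0 (e i)) (by norm_num),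
    F, hFu, h1, h2, ?_⟩
  rintro ⟨b, hb⟩
  obtain ⟨t1, ht1, hb1⟩ := ae_exists h1 hb
  obtain ⟨t2, ht2, hb2⟩ := ae_exists h2 hb
  have h3 : (d : ℝ≥0∞) ≤ 1 := by
    have h4 : (d : ℝ≥0∞) ≤ b := by rw [← hb2]; exact ht2
    have h5 : b ≤ 1 := by rw [← hb1]; exact ht1.1
    exact h4.trans h5
  have h4 : d ≤ 1 := by exact_mod_cast h3
  omega

end main

end Pool.Agent.MP_b039ef_an
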