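import Pool.Agent.Lib.MP_b039ef_an.Cover

set_option autoImplicit false

namespace Pool.Agent.MP_b039ef_an

open scoped ENNReal NNReal
open MeasureTheory

section sys

variable {d : ℕ} (i0 : Fin d)

/-- the space -/
abbrev Sp (d : ℕ) := EuclideanSpace ℝ (Fin d)

/-- diagonal entries of the non-conformal map -/
noncomputable def cf (i0 : Fin d) (k : Fin d) : ℝ := if k = i0 then 2 / 5 else 1 / 5

/-- index set of the maps -/
abbrev Ix (d : ℕ) := Option (Fin d → Fin 3)

/-- the non-conformal map -/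
noncomputable def Dlin (i0 : Fin d) : Sp d →ₗ[ℝ] Sp d where
  toFun x := WithLp.toLp 2 fun k => cf i0 k * x k
  map_add' x y := by
    ext k
    simp [mul_add]
  map_smul' c x := by
    ext k
    simp
    ring

theorem Dlin_apply (x : Sp d) (k : Fin d) : Dlin i0 x k = cf i0 k * x k := rfl

/-- the linear parts -/
noncomputable def Am (i0 : Fin d) : Ix d → Sp d →L[ℝ] Sp d
  | none => LinearMap.toContinuousLinearMap (Dlin i0)
  | some _ => (2 / 5 : ℝ) • ContinuousLinearMap.id ℝ (Sp d)

theorem Am_none (x : Sp d) (k : Fin d) : Am i0 none x k = cf i0 k * x k := rfl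

theorem Am_some (σ : Fin d → Fin 3) (x : Sp d) : Am i0 (some σ) x = (2 / 5 : ℝ) • x := rfl

theorem cf_pos (k : Fin d) : 0 < cf i0 k := by
  unfold cf; split_ifs <;> norm_num

theorem cf_le (k : Fin d) : cf i0 k ≤ 2 / 5 := by
  unfold cf; split_ifs <;> norm_num

theorem Am_norm (i : Ix d) : ‖Am i0 i‖ ≤ 2 / 5 := by
  cases i with
  | none =>
    apply ContinuousLinearMap.opNorm_le_bound _ (by norm_num)
    intro x
    rw [EuclideanSpace.norm_eq, EuclideanSpace.norm_eq]
    have h1 : (2 / 5 : ℝ) * √(∑ k, ‖x k‖ ^ 2) = √((2 / 5) ^ 2 * ∑ k, ‖x k‖ ^ 2) := by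
      rw [Real.sqrt_mul (by positivity), Real.sqrt_sq (by norm_num)]
    rw [h1]
    apply Real.sqrt_le_sqrt
    rw [Finset.mul_sum]
    apply Finset.sum_le_sum
    intro k _
    rw [Am_none, norm_mul, mul_pow]
    apply mul_le_mul_of_nonneg_right _ (by positivity)
    rw [Real.norm_eq_abs, abs_of_pos (cf_pos i0 k)]
    exact pow_le_pow_left₀ (cf_pos i0 k).le (cf_le i0 k) 2
  | some σ =>
    apply ContinuousLinearMap.opNorm_le_bound _ (by norm_num)
    intro x
    rw [Am_some, norm_smul]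
    norm_num

theorem Am_bij (i : Ix d) : Function.Bijective (Am i0 i) := by
  cases i with
  | none =>
    refine Function.bijective_iff_has_inverse.2
      ⟨fun y => WithLp.toLp 2 fun k => (cf i0 k)⁻¹ * y k, ?_, ?_⟩
    · intro x
      ext k
      change (cf i0 k)⁻¹ * (cf i0 k * x k) = x k
      rw [← mul_assoc, inv_mul_cancel₀ (cf_pos i0 k).ne', one_mul]
    · intro x
      ext k
      change cf i0 k * ((cf i0 k)⁻¹ * x k) = x k
      rw [← mul_assoc, mul_inv_cancel₀ (cf_pos i0 k).ne', one_mul]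
  | some σ =>
    refine Function.bijective_iff_has_inverse.2 ⟨fun y => (5 / 2 : ℝ) • y, ?_, ?_⟩
    · intro x
      change (5 / 2 : ℝ) • ((2 / 5 : ℝ) • x) = x
      rw [smul_smul]; norm_num
    · intro x
      change (2 / 5 : ℝ) • ((5 / 2 : ℝ) • x) = x
      rw [smul_smul]; norm_num

/-- centres -/
noncomputable def gc : Fin 3 → ℝ := ![-13 / 20, 0, 13 / 20]

/-- condition on the translations of the similarities -/
def G (t : Ix d → Sp d) : Prop := ∀ (σ : Fin d → Fin 3) (k : Fin d), |t (some σ) k - gc (σ k)| < 1 / 20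

/-- the cube -/
def Cube (d : ℕ) : Set (Sp d) := {x | ∀ k, |x k| ≤ 1}

theorem cube_cover (t : Ix d → Sp d) (ht : G t) (x : Sp d) (hx : x ∈ Cube d) :
    ∃ (σ : Fin d → Fin 3) (x' : Sp d), x' ∈ Cube d ∧ x = Am i0 (some σ) x' + t (some σ) := by
  have h1 : ∀ u : ℝ, |u| ≤ 1 → ∃ a : Fin 3, |u - gc a| ≤ 7 / 20 := by
    intro u hu
    rw [abs_le] at hu
    by_cases ha : u < -3 / 10
    · refine ⟨0, ?_⟩
      have : gc 0 = -13 / 20 := rfl
      rw [this, abs_le]
      constructor <;> linarith [hu.1, hu.2]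
    · by_cases hb : u ≤ 3 / 10
      · refine ⟨1, ?_⟩
        have : gc 1 = 0 := rfl
        push Not at ha
        rw [this, abs_le]
        constructor <;> linarith [hu.1, hu.2]
      · refine ⟨2, ?_⟩
        have : gc 2 = 13 / 20 := rfl
        push Not at hb
        rw [this, abs_le]
        constructor <;> linarith [hu.1, hu.2]
  choose σ hσ using fun k => h1 (x k) (hx k)
  refine ⟨σ, (5 / 2 : ℝ) • (x - t (some σ)), ?_, ?_⟩
  · intro k
    have h2 := hσ k
    have h3 := ht σ k
    have h4 : ((5 / 2 : ℝ) • (x - t (some σ))) k = 5 / 2 * (x k - t (some σ) k) := rfl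
    rw [h4, abs_mul, abs_of_pos (by norm_num : (0 : ℝ) < 5 / 2)]
    have h5 : |x k - t (some σ) k| ≤ 2 / 5 := by
      rw [abs_le] at h2 ⊢
      rw [abs_lt] at h3
      constructor <;> linarith [h2.1, h2.2, h3.1, h3.2]
    linarith
  · rw [Am_some, smul_smul]
    norm_num

theorem cube_norm (x : Sp d) (hx : x ∈ Cube d) : ‖x‖ ≤ √d := by
  rw [EuclideanSpace.norm_eq]
  apply Real.sqrt_le_sqrt
  calc ∑ k, ‖x k‖ ^ 2 ≤ ∑ _k : Fin d, (1 : ℝ) := by
        apply Finset.sum_le_sum
        intro k _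
        have := hx k
        rw [Real.norm_eq_abs]
        exact pow_le_one₀ (abs_nonneg _) this
    _ = d := by simp

variable {i0}

theorem image_mem {t : Ix d → Sp d} {F : Set (Sp d)} (hF : IsSelfAffineSet (Am i0) t F) (i : Ix d)
    (x : Sp d) (hx : x ∈ F) : Am i0 i x + t i ∈ F := by
  rw [hF.2.2]
  exact Set.mem_iUnion.2 ⟨i, x, hx, rfl⟩

theorem infDist_image {t : Ix d → Sp d} {F : Set (Sp d)} (hF : IsSelfAffineSet (Am i0) t F)
    (i : Ix d) (x : Sp d) :
    Metric.infDist (Am i0 i x + t i) F ≤ 2 / 5 * Metric.infDist x F := by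
  obtain ⟨y, hy, hy'⟩ := hF.2.1.exists_infDist_eq_dist hF.1 x
  rw [hy']
  refine (Metric.infDist_le_dist_of_mem (image_mem hF i y hy)).trans ?_
  rw [dist_add_right, dist_eq_norm, dist_eq_norm, ← map_sub]
  exact ((Am i0 i).le_opNorm _).trans (mul_le_mul_of_nonneg_right (Am_norm i0 i) (norm_nonneg _))

theorem cube_subset {t : Ix d → Sp d} (ht : G t) {F : Set (Sp d)}
    (hF : IsSelfAffineSet (Am i0) t F) : Cube d ⊆ F := by
  obtain ⟨x0, hx0⟩ := hF.1
  have h1 : ∀ (n : ℕ) (x : Sp d), x ∈ Cube d → Metric.infDist x F ≤ (2 / 5) ^ n * (√d + ‖x0‖) := by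
    intro n
    induction n with
    | zero =>
      intro x hx
      rw [pow_zero, one_mul]
      refine (Metric.infDist_le_dist_of_mem hx0).trans ?_
      rw [dist_eq_norm]
      exact (norm_sub_le _ _).trans (add_le_add_left (cube_norm x hx) _)
    | succ n ih =>
      intro x hx
      obtain ⟨σ, x', hx', rfl⟩ := cube_cover i0 t ht x hx
      refine (infDist_image hF _ _).trans ?_
      rw [pow_succ]
      have := ih x' hx'
      calc 2 / 5 * Metric.infDist x' F ≤ 2 / 5 * ((2 / 5) ^ n * (√d + ‖x0‖)) :=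
            mul_le_mul_of_nonneg_left this (by norm_num)
        _ = _ := by ring
  intro x hx
  rw [hF.2.1.isClosed.mem_iff_infDist_zero hF.1]
  apply le_antisymm _ Metric.infDist_nonneg
  have h2 : Filter.Tendsto (fun n : ℕ => ((2 : ℝ) / 5) ^ n * (√d + ‖x0‖)) Filter.atTop (nhds 0) := by
    have := (tendsto_pow_atTop_nhds_zero_of_lt_one (by norm_num : (0 : ℝ) ≤ 2 / 5)
      (by norm_num)).mul_const (√d + ‖x0‖)
    rwa [zero_mul] at this
  exact ge_of_tendsto h2 (Filter.Eventually.of_forall fun n => h1 n x hx)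

theorem ball_subset_cube : Metric.closedBall (0 : Sp d) 1 ⊆ Cube d := by
  intro x hx k
  rw [mem_closedBall_zero_iff] at hx
  have := PiLp.norm_apply_le x k
  rw [Real.norm_eq_abs] at this
  exact this.trans hx

end sys

end Pool.Agent.MP_b039ef_an
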