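import Pool.Agent.Lib.MP_b039ef_an.Fat

set_option autoImplicit false

namespace Pool.Agent.MP_b039ef_an

open scoped ENNReal NNReal
open MeasureTheory

section thin

variable {d : ℕ} {i0 : Fin d}

/-- the fixed point of the non-conformal map -/
noncomputable def fp (i0 : Fin d) (t : Ix d → Sp d) : Sp d :=
  WithLp.toLp 2 fun k => t none k / (1 - cf i0 k)

theorem fp_apply (t : Ix d → Sp d) (k : Fin d) : fp i0 t k = t none k / (1 - cf i0 k) := rfl

theorem fp_fix (t : Ix d → Sp d) : Am i0 none (fp i0 t) + t none = fp i0 t := by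
  ext k
  change cf i0 k * (t none k / (1 - cf i0 k)) + t none k = t none k / (1 - cf i0 k)
  have h : 1 - cf i0 k ≠ 0 := by
    have := cf_le i0 k
    linarith
  field_simp
  ring

theorem fp_mem {t : Ix d → Sp d} {F : Set (Sp d)} (hF : IsSelfAffineSet (Am i0) t F) :
    fp i0 t ∈ F := by
  rw [hF.2.1.isClosed.mem_iff_infDist_zero hF.1]
  have h1 := infDist_image hF none (fp i0 t)
  rw [fp_fix] at h1
  have h2 := Metric.infDist_nonneg (x := fp i0 t) (s := F)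
  linarith

theorem left_bound {t : Ix d → Sp d} (ht : G t) (ht0 : |t none i0 + 10| < 1 / 20) {F : Set (Sp d)}
    (hF : IsSelfAffineSet (Am i0) t F) (x : Sp d) (hx : x ∈ F) :
    t none i0 * (5 / 3) ≤ x i0 := by
  have hcont : ContinuousOn (fun x : Sp d => x i0) F := by
    apply Continuous.continuousOn
    fun_prop
  obtain ⟨z, hz, hz'⟩ := hF.2.1.exists_isMinOn hF.1 hcont
  have hz2 : ∀ x ∈ F, z i0 ≤ x i0 := fun x hx => hz' hx
  rw [hF.2.2] at hz
  obtain ⟨i, z', hz'F, hzz⟩ := Set.mem_iUnion.1 hz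
  have h1 := hz2 z' hz'F
  have h5 := hz2 x hx
  rw [abs_lt] at ht0
  cases i with
  | none =>
    have e : z i0 = 2 / 5 * z' i0 + t none i0 := by
      rw [← hzz]
      change cf i0 i0 * z' i0 + t none i0 = _
      simp [cf]
    linarith
  | some σ =>
    have e : z i0 = 2 / 5 * z' i0 + t (some σ) i0 := by
      rw [← hzz]
      rfl
    have h3 := t_abs ht σ i0
    rw [abs_le] at h3
    linarith [h3.1, ht0.2]

theorem near_left {t : Ix d → Sp d} (ht : G t) (ht0 : |t none i0 + 10| < 1 / 20) {F : Set (Sp d)}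
    (hF : IsSelfAffineSet (Am i0) t F) (x : Sp d) (hx : x ∈ F)
    (hx0 : x i0 ≤ t none i0 * (5 / 3) + 9) : ∃ x' ∈ F, x = Am i0 none x' + t none := by
  have hx2 := hx
  rw [hF.2.2] at hx2
  obtain ⟨i, x', hx'F, hxx⟩ := Set.mem_iUnion.1 hx2
  cases i with
  | none => exact ⟨x', hx'F, hxx.symm⟩
  | some σ =>
    exfalso
    have e : x i0 = 2 / 5 * x' i0 + t (some σ) i0 := by
      rw [← hxx]
      rfl
    have h1 := left_bound ht ht0 hF x' hx'F
    have h3 := t_abs ht σ i0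
    rw [abs_le] at h3
    rw [abs_lt] at ht0
    linarith [h3.1, ht0.1, ht0.2]

theorem descend {t : Ix d → Sp d} (ht : G t) (ht0 : |t none i0 + 10| < 1 / 20) {F : Set (Sp d)}
    (hF : IsSelfAffineSet (Am i0) t F) (n : ℕ) :
    ∀ x ∈ F, x i0 ≤ t none i0 * (5 / 3) + (2 / 5) ^ n →
      ∃ z ∈ F, ∀ k, x k - fp i0 t k = cf i0 k ^ n * (z k - fp i0 t k) := by
  induction n with
  | zero =>
    intro x hx _
    exact ⟨x, hx, fun k => by rw [pow_zero, one_mul]⟩
  | succ n ih =>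
    intro x hx hxn
    have h1 : ((2 : ℝ) / 5) ^ (n + 1) ≤ 1 := pow_le_one₀ (by norm_num) (by norm_num)
    obtain ⟨x', hx', hxx⟩ := near_left ht ht0 hF x hx (by linarith)
    have e : ∀ k, x k = cf i0 k * x' k + t none k := by
      intro k
      rw [hxx]
      rfl
    have e0 : x i0 = 2 / 5 * x' i0 + t none i0 := by
      rw [e i0]
      simp [cf]
    obtain ⟨z, hz, hz'⟩ := ih x' hx' (by rw [pow_succ] at hxn; linarith)
    refine ⟨z, hz, fun k => ?_⟩
    have h2 : fp i0 t k = cf i0 k * fp i0 t k + t none k := by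
      conv_lhs => rw [← fp_fix]
      rfl
    rw [e k, pow_succ]
    have h3 := hz' k
    calc cf i0 k * x' k + t none k - fp i0 t k
        = cf i0 k * (x' k - fp i0 t k) + (cf i0 k * fp i0 t k + t none k - fp i0 t k) := by ring
      _ = cf i0 k * (x' k - fp i0 t k) := by rw [← h2]; ring
      _ = _ := by rw [h3]; ring

theorem dist_le_of_coord (x y : Sp d) (ℓ : ℝ) (hℓ : 0 ≤ ℓ) (h : ∀ k, |x k - y k| ≤ ℓ) :
    dist x y ≤ √d * ℓ := by
  rw [EuclideanSpace.dist_eq]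
  have h1 : √d * ℓ = √(d * ℓ ^ 2) := by
    rw [Real.sqrt_mul (Nat.cast_nonneg _), Real.sqrt_sq hℓ]
  rw [h1]
  apply Real.sqrt_le_sqrt
  calc ∑ k, dist (x k) (y k) ^ 2 ≤ ∑ _k : Fin d, ℓ ^ 2 := by
        apply Finset.sum_le_sum
        intro k _
        rw [Real.dist_eq]
        exact pow_le_pow_left₀ (abs_nonneg _) (h k) 2
    _ = d * ℓ ^ 2 := by simp

theorem cover_thin {t : Ix d → Sp d} (ht : G t) (ht0 : |t none i0 + 10| < 1 / 20)
    {F : Set (Sp d)} (hF : IsSelfAffineSet (Am i0) t F) (D : ℝ) (hD : 1 ≤ D)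
    (hDF : ∀ z ∈ F, ∀ k, |z k - fp i0 t k| ≤ D) (n : ℕ) :
    ((coverNum (√d * (2 * D * (1 / 5) ^ n)) (Metric.closedBall (fp i0 t) ((2 / 5) ^ n) ∩ F) : ℕ∞) :
      ℝ≥0∞) ≤ ENNReal.ofReal (2 * 2 ^ n) := by
  set p := fp i0 t with hp
  set R : ℝ := (2 / 5) ^ n with hR
  set ℓ : ℝ := 2 * D * (1 / 5) ^ n with hℓ
  have hℓ0 : 0 < ℓ := by positivity
  have hR0 : 0 < R := by positivity
  set K : ℕ := ⌊2 * R / ℓ⌋₊ + 1 with hK
  let U : Fin K → Set (Sp d) := fun j => {x | (p i0 - R + (j : ℕ) * ℓ ≤ x i0 ∧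
    x i0 ≤ p i0 - R + ((j : ℕ) + 1) * ℓ) ∧ ∀ k, k ≠ i0 → |x k - p k| ≤ D * (1 / 5) ^ n}
  have hU : ∀ j, Metric.ediam (U j) ≤ ENNReal.ofReal (√d * ℓ) := by
    intro j
    apply Metric.ediam_le
    intro x hx y hy
    rw [edist_dist]
    apply ENNReal.ofReal_le_ofReal
    apply dist_le_of_coord _ _ _ hℓ0.le
    intro k
    by_cases hk : k = i0
    · subst hk
      rw [abs_le]
      constructor <;> linarith [hx.1.1, hx.1.2, hy.1.1, hy.1.2]
    · have h1 := hx.2 k hk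
      have h2 := hy.2 k hk
      rw [abs_le] at h1 h2 ⊢
      constructor <;> linarith [h1.1, h1.2, h2.1, h2.2]
  have hp0 : p i0 = t none i0 * (5 / 3) := by
    rw [hp, fp_apply]
    simp only [cf, if_true]
    ring
  have hS : Metric.closedBall p R ∩ F ⊆ ⋃ j, U j := by
    rintro x ⟨hx, hxF⟩
    have h1 : |x i0 - p i0| ≤ R := by
      rw [Metric.mem_closedBall, dist_eq_norm] at hx
      have := PiLp.norm_apply_le (x - p) i0
      rw [Real.norm_eq_abs] at this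
      exact this.trans hx
    rw [abs_le] at h1
    obtain ⟨z, hz, hzk⟩ := descend ht ht0 hF n x hxF (by rw [← hp0]; linarith [h1.2])
    set u := x i0 - (p i0 - R) with hu
    have hu0 : 0 ≤ u := by linarith [h1.1]
    have hu1 : u ≤ 2 * R := by linarith [h1.2]
    have hj : ⌊u / ℓ⌋₊ < K := by
      rw [hK, Nat.lt_succ_iff]
      exact Nat.floor_le_floor (div_le_div_of_nonneg_right hu1 hℓ0.le)
    refine Set.mem_iUnion.2 ⟨⟨⌊u / ℓ⌋₊, hj⟩, ⟨?_, ?_⟩, ?_⟩
    · have h2 := Nat.floor_le (div_nonneg hu0 hℓ0.le)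
      rw [le_div_iff₀ hℓ0] at h2
      simp only
      linarith
    · have h2 := Nat.lt_floor_add_one (u / ℓ)
      rw [div_lt_iff₀ hℓ0] at h2
      simp only
      linarith
    · intro k hk
      rw [hzk k, abs_mul, abs_pow, abs_of_pos (cf_pos i0 k)]
      have h3 : cf i0 k = 1 / 5 := by simp [cf, hk]
      rw [h3, mul_comm]
      exact mul_le_mul_of_nonneg_right (hDF z hz k) (by positivity)
  have h1 := coverNum_le (√d * ℓ) (Metric.closedBall p R ∩ F) K U hU hS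
  have h2 : ((coverNum (√d * ℓ) (Metric.closedBall p R ∩ F) : ℕ∞) : ℝ≥0∞) ≤ ((K : ℕ∞) : ℝ≥0∞) := by
    exact_mod_cast h1
  refine h2.trans ?_
  have h3 : ((K : ℕ∞) : ℝ≥0∞) = ENNReal.ofReal (K : ℝ) := by
    rw [ENNReal.ofReal_natCast]
    simp
  rw [h3]
  apply ENNReal.ofReal_le_ofReal
  have h4 : 2 * R / ℓ = 2 ^ n / D := by
    have h5 : (2 / 5 : ℝ) ^ n = 2 ^ n * (1 / 5) ^ n := by
      rw [← mul_pow]; norm_num
    rw [hR, hℓ, h5]
    field_simp
  have h6 := Nat.floor_le (show 0 ≤ 2 * R / ℓ by positivity)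
  rw [h4] at h6
  have h7 : (2 : ℝ) ^ n / D ≤ 2 ^ n := div_le_self (by positivity) hD
  have h8 : (1 : ℝ) ≤ 2 ^ n := one_le_pow₀ (by norm_num)
  rw [hK, h4]
  push_cast
  linarith

theorem lower_thin (hd : 0 < d) {t : Ix d → Sp d} (ht : G t) (ht0 : |t none i0 + 10| < 1 / 20)
    {F : Set (Sp d)} (hF : IsSelfAffineSet (Am i0) t F) : lowerDim F ≤ 1 := by
  obtain ⟨D, hD1, hD⟩ : ∃ D : ℝ, 1 ≤ D ∧ ∀ z ∈ F, ∀ k, |z k - fp i0 t k| ≤ D := by
    refine ⟨max (Metric.diam F) 1, le_max_right _ _, fun z hz k => ?_⟩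
    refine le_trans ?_ (le_max_left _ _)
    refine le_trans ?_ (Metric.dist_le_diam_of_mem hF.2.1.isBounded hz (fp_mem hF))
    rw [dist_eq_norm]
    have := PiLp.norm_apply_le (z - fp i0 t) k
    rwa [Real.norm_eq_abs] at this
  have hdiam : 0 < Metric.diam F := by
    have hsub : Metric.closedBall (0 : Sp d) 1 ⊆ F := ball_subset_cube.trans (cube_subset ht hF)
    have h0 : (0 : Sp d) ∈ F := hsub (Metric.mem_closedBall_self (by norm_num))
    have h1 : EuclideanSpace.single i0 (1 : ℝ) ∈ F := by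
      apply hsub
      rw [mem_closedBall_zero_iff]
      simp
    have h2 := Metric.dist_le_diam_of_mem hF.2.1.isBounded h1 h0
    rw [dist_zero_right] at h2
    have h3 : ‖(EuclideanSpace.single i0 (1 : ℝ) : Sp d)‖ = 1 := by simp
    rw [h3] at h2
    linarith
  have hsd : 0 < √(d : ℝ) := Real.sqrt_pos.2 (by exact_mod_cast hd)
  refine iSup₂_le ?_
  rintro s ⟨C, hC0, hC⟩
  by_contra hcon
  push Not at hcon
  have hs : (1 : ℝ) < s := by
    have h1 : (1 : ℝ≥0) < s := by exact_mod_cast hcon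
    exact_mod_cast h1
  set M : ℝ := √d * (2 * D) with hM
  have hM0 : 0 < M := by positivity
  -- eventually
  have hev1 : ∀ᶠ n : ℕ in Filter.atTop, M < 2 ^ n :=
    (tendsto_pow_atTop_atTop_of_one_lt (by norm_num : (1 : ℝ) < 2)).eventually_gt_atTop M
  have hev2 : ∀ᶠ n : ℕ in Filter.atTop, ((2 : ℝ) / 5) ^ n < Metric.diam F :=
    (tendsto_pow_atTop_nhds_zero_of_lt_one (by norm_num) (by norm_num)).eventually
      (gt_mem_nhds hdiam)
  have hbound : ∀ᶠ n : ℕ in Filter.atTop, ((2 : ℝ) ^ n) ^ ((s : ℝ) - 1) ≤ 2 * M ^ (s : ℝ) / C := by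
    filter_upwards [hev1, hev2] with n hn1 hn2
    have h5 : (2 / 5 : ℝ) ^ n = 2 ^ n * (1 / 5) ^ n := by
      rw [← mul_pow]; norm_num
    have hr0 : 0 < √(d : ℝ) * (2 * D * (1 / 5) ^ n) := by positivity
    have hrR : √(d : ℝ) * (2 * D * (1 / 5) ^ n) < (2 / 5) ^ n := by
      rw [h5]
      have : √(d : ℝ) * (2 * D * (1 / 5) ^ n) = M * (1 / 5) ^ n := by rw [hM]; ring
      rw [this]
      exact mul_lt_mul_of_pos_right hn1 (by positivity)
    have h6 := (hC (fp i0 t) (fp_mem hF) _ _ hr0 hrR hn2.le).trans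
      (cover_thin ht ht0 hF D hD1 hD n)
    rw [ENNReal.ofReal_le_ofReal_iff (by positivity)] at h6
    have h7 : (2 / 5 : ℝ) ^ n / (√(d : ℝ) * (2 * D * (1 / 5) ^ n)) = 2 ^ n / M := by
      rw [h5, hM]
      field_simp
    rw [h7, Real.div_rpow (by positivity) hM0.le] at h6
    rw [Real.rpow_sub (by positivity), Real.rpow_one, div_le_iff₀ (by positivity)]
    have h8 : 0 < M ^ (s : ℝ) := Real.rpow_pos_of_pos hM0 _
    calc ((2 : ℝ) ^ n) ^ (s : ℝ) = (C * (((2 : ℝ) ^ n) ^ (s : ℝ) / M ^ (s : ℝ))) * (M ^ (s : ℝ) / C) := by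
          field_simp
      _ ≤ (2 * 2 ^ n) * (M ^ (s : ℝ) / C) := mul_le_mul_of_nonneg_right h6 (by positivity)
      _ = 2 * M ^ (s : ℝ) / C * 2 ^ n := by ring
  have h6 : Filter.Tendsto (fun n : ℕ => ((2 : ℝ) ^ n) ^ ((s : ℝ) - 1)) Filter.atTop Filter.atTop :=
    (tendsto_rpow_atTop (by linarith)).comp (tendsto_pow_atTop_atTop_of_one_lt (by norm_num))
  obtain ⟨n, hn, hn'⟩ := ((h6.eventually_gt_atTop (2 * M ^ (s : ℝ) / C)).and hbound).exists
  exact absurd hn' (not_le.2 hn)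

end thin

end Pool.Agent.MP_b039ef_an
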