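import Pool.Agent.Lib.MP_b039ef_an.DetLow

set_option autoImplicit false

/-!
# For almost every translation vector there are no ties between the heights of the pieces
-/

namespace Pool.Agent.MP_b039ef_an

open scoped ENNReal NNReal
open MeasureTheory

section packing

/-- If the translates `S + g k` are pairwise disjoint and contained in `Q`, then
`card κ * μ S ≤ μ Q`. -/
theorem packing {P : Type} [AddCommGroup P] [MeasurableSpace P] [MeasurableAdd P] (μ : Measure P)
    [μ.IsAddLeftInvariant] {S Q : Set P} (hS : MeasurableSet S) {κ : Type} [Fintype κ] (g : κ → P)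
    (hd : ∀ k l, k ≠ l → ∀ x ∈ S, ∀ y ∈ S, x + g k ≠ y + g l)
    (hQ : ∀ k, ∀ x ∈ S, x + g k ∈ Q) : (Fintype.card κ : ℝ≥0∞) * μ S ≤ μ Q := by
  have h1 : ∀ k, μ ((fun x => -g k + x) ⁻¹' S) = μ S := fun k => measure_preimage_add μ _ _
  have h2 : μ (⋃ k, (fun x => -g k + x) ⁻¹' S) = ∑ k, μ ((fun x => -g k + x) ⁻¹' S) := by
    rw [measure_iUnion, tsum_fintype]
    · intro k l hkl
      rw [Function.onFun, Set.disjoint_left]
      intro x hx hy
      have h4 : ∀ k, -g k + x + g k = x := fun k => by abel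
      apply hd k l hkl _ hx _ hy
      rw [h4, h4]
    · intro k
      exact hS.preimage (measurable_const_add _)
  calc (Fintype.card κ : ℝ≥0∞) * μ S = ∑ k, μ ((fun x => -g k + x) ⁻¹' S) := by
        simp only [h1, Finset.sum_const, Finset.card_univ, nsmul_eq_mul]
    _ = μ (⋃ k, (fun x => -g k + x) ⁻¹' S) := h2.symm
    _ ≤ μ Q := by
      apply measure_mono
      apply Set.iUnion_subset
      intro k x hx
      have h3 := hQ k _ hx
      have h4 : -g k + x + g k = x := by abel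
      rwa [h4] at h3

end packing

section hausdorff

variable {E : Type} [NormedAddCommGroup E] [NormedSpace ℝ E] {ι : Type} {A : ι → E →L[ℝ] E}
  {a : ℝ}

private theorem norm_bound [Fintype ι] (hA : ∀ i, ‖A i‖ ≤ a) (ha : a < 1) {t : ι → E} {F : Set E}
    (hF : IsSelfAffineSet A t F) {x : E} (hx : x ∈ F) : ‖x‖ ≤ ‖t‖ / (1 - a) := by
  obtain ⟨z, hz, hmax⟩ := hF.2.1.exists_isMaxOn hF.1 continuous_norm.continuousOn
  have h1 : ‖z‖ ≤ a * ‖z‖ + ‖t‖ := by
    have hz' := hz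
    rw [hF.2.2] at hz'
    obtain ⟨i, y, hy, hiy⟩ := Set.mem_iUnion.1 hz'
    have h2 : ‖y‖ ≤ ‖z‖ := hmax hy
    calc ‖z‖ = ‖A i y + t i‖ := by rw [← hiy]
      _ ≤ ‖A i y‖ + ‖t i‖ := norm_add_le _ _
      _ ≤ a * ‖z‖ + ‖t‖ := by
        apply add_le_add _ (norm_le_pi_norm t i)
        have h3 := (A i).le_opNorm y
        have h4 : 0 ≤ a := (norm_nonneg _).trans (hA i)
        calc ‖A i y‖ ≤ ‖A i‖ * ‖y‖ := h3
          _ ≤ a * ‖z‖ := mul_le_mul (hA i) h2 (norm_nonneg _) h4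
  have h3 : ‖x‖ ≤ ‖z‖ := hmax hx
  rw [le_div_iff₀ (by linarith)]
  have h4 : ‖x‖ * (1 - a) ≤ ‖z‖ * (1 - a) := by
    apply mul_le_mul_of_nonneg_right h3
    linarith
  linarith

private theorem hausdorff_bound [Fintype ι] (hA : ∀ i, ‖A i‖ ≤ a) (ha : a < 1) {t t' : ι → E}
    {F F' : Set E} (hF : IsSelfAffineSet A t F) (hF' : IsSelfAffineSet A t' F') {x : E}
    (hx : x ∈ F) : ∃ y ∈ F', ‖x - y‖ ≤ ‖t - t'‖ / (1 - a) := by
  obtain ⟨z, hz, hmax⟩ := hF.2.1.exists_isMaxOn hF.1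
    (Metric.continuous_infDist_pt F').continuousOn
  have h0 : ∀ x ∈ F, Metric.infDist x F' ≤ Metric.infDist z F' := fun x hx => hmax hx
  have h1 : Metric.infDist z F' ≤ a * Metric.infDist z F' + ‖t - t'‖ := by
    have hz' := hz
    rw [hF.2.2] at hz'
    obtain ⟨i, y, hy, hiy⟩ := Set.mem_iUnion.1 hz'
    obtain ⟨y', hy', hyy⟩ := hF'.2.1.exists_infDist_eq_dist hF'.1 y
    have h2 : A i y' + t' i ∈ F' := by
      rw [hF'.2.2]
      exact Set.mem_iUnion.2 ⟨i, y', hy', rfl⟩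
    have h4 : 0 ≤ a := (norm_nonneg _).trans (hA i)
    calc Metric.infDist z F' ≤ dist z (A i y' + t' i) := Metric.infDist_le_dist_of_mem h2
      _ = ‖A i (y - y') + (t i - t' i)‖ := by
        rw [dist_eq_norm, ← hiy]
        have h5 : A i y + t i - (A i y' + t' i) = A i (y - y') + (t i - t' i) := by
          rw [map_sub]
          abel
        exact congrArg norm h5
      _ ≤ ‖A i (y - y')‖ + ‖t i - t' i‖ := norm_add_le _ _
      _ ≤ a * Metric.infDist z F' + ‖t - t'‖ := by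
        apply add_le_add _ (norm_le_pi_norm (t - t') i)
        calc ‖A i (y - y')‖ ≤ ‖A i‖ * ‖y - y'‖ := (A i).le_opNorm _
          _ ≤ a * Metric.infDist z F' := by
            apply mul_le_mul (hA i) _ (norm_nonneg _) h4
            rw [← dist_eq_norm, ← hyy]
            exact h0 y hy
  obtain ⟨y, hy, hxy⟩ := hF'.2.1.exists_infDist_eq_dist hF'.1 x
  refine ⟨y, hy, ?_⟩
  rw [← dist_eq_norm, ← hxy, le_div_iff₀ (by linarith)]
  have h4 : Metric.infDist x F' * (1 - a) ≤ Metric.infDist z F' * (1 - a) := by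
    apply mul_le_mul_of_nonneg_right (h0 x hx)
    linarith
  linarith

private theorem le_hgt' {t : ι → E} {F : Set E} (hF : IsSelfAffineSet A t F) (i : ι)
    (u : E →L[ℝ] ℝ) {y : E} (hy : y ∈ F) : u (A i y + t i) ≤ hgt A t F i u := by
  apply le_csSup
  · exact (hF.2.1.image (by fun_prop)).bddAbove
  · exact ⟨y, hy, rfl⟩

private theorem hgt_le' {t : ι → E} {F : Set E} (hF : IsSelfAffineSet A t F) (i : ι)
    (u : E →L[ℝ] ℝ) {B : ℝ} (h : ∀ y ∈ F, u (A i y + t i) ≤ B) : hgt A t F i u ≤ B := by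
  apply csSup_le (hF.1.image _)
  rintro _ ⟨y, hy, rfl⟩
  exact h y hy

/-- the heights move with the translations -/
private theorem hgt_move [Fintype ι] (hA : ∀ i, ‖A i‖ ≤ a) (ha : a < 1) {t t' : ι → E}
    {F F' : Set E} (hF : IsSelfAffineSet A t F) (hF' : IsSelfAffineSet A t' F') (i : ι)
    (u : E →L[ℝ] ℝ) :
    hgt A t' F' i u ≤ hgt A t F i u + u (t' i - t i) + ‖u‖ * a * (‖t' - t‖ / (1 - a)) := by
  apply hgt_le' hF'
  intro y hy
  obtain ⟨x, hx, hxy⟩ := hausdorff_bound hA ha hF' hF hy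
  have h1 := le_hgt' hF i u hx
  have h4 : 0 ≤ a := (norm_nonneg _).trans (hA i)
  have h2 : u (A i (y - x)) ≤ ‖u‖ * a * (‖t' - t‖ / (1 - a)) := by
    calc u (A i (y - x)) ≤ ‖u (A i (y - x))‖ := Real.le_norm_self _
      _ ≤ ‖u‖ * ‖A i (y - x)‖ := u.le_opNorm _
      _ ≤ ‖u‖ * (a * (‖t' - t‖ / (1 - a))) := by
        apply mul_le_mul_of_nonneg_left _ (norm_nonneg _)
        exact ((A i).le_opNorm _).trans (mul_le_mul (hA i) hxy (norm_nonneg _) h4)
      _ = _ := by ring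
  have h3 : u (A i y + t' i) = u (A i x + t i) + u (t' i - t i) + u (A i (y - x)) := by
    simp only [map_add, map_sub]
    ring
  rw [h3]
  linarith

/-- the heights are Lipschitz in the covector -/
private theorem hgt_lip [Fintype ι] (hA : ∀ i, ‖A i‖ ≤ a) (ha : a < 1) {t : ι → E} {F : Set E}
    (hF : IsSelfAffineSet A t F) (i : ι) (u u' : E →L[ℝ] ℝ) :
    hgt A t F i u ≤ hgt A t F i u' + ‖u - u'‖ * (‖t‖ / (1 - a)) := by
  apply hgt_le' hF
  intro y hy
  have h1 := le_hgt' hF i u' hy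
  have h2 : A i y + t i ∈ F := by
    rw [hF.2.2]
    exact Set.mem_iUnion.2 ⟨i, y, hy, rfl⟩
  have h3 := norm_bound hA ha hF h2
  have h4 : (u - u') (A i y + t i) ≤ ‖u - u'‖ * (‖t‖ / (1 - a)) := by
    calc (u - u') (A i y + t i) ≤ ‖(u - u') (A i y + t i)‖ := Real.le_norm_self _
      _ ≤ ‖u - u'‖ * ‖A i y + t i‖ := (u - u').le_opNorm _
      _ ≤ _ := by gcongr
  rw [sub_apply] at h4
  linarith

end hausdorff

section measure

variable {E : Type} [NormedAddCommGroup E] [NormedSpace ℝ E] {ι : Type} [Fintype ι]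
  {A : ι → E →L[ℝ] E} {a : ℝ}

/-- difference of two heights -/
private noncomputable def dh (A : ι → E →L[ℝ] E) (F : (ι → E) → Set E) (i j : ι) (u : E →L[ℝ] ℝ)
    (t : ι → E) : ℝ := hgt A t (F t) i u - hgt A t (F t) j u

private theorem dh_cont (hA : ∀ i, ‖A i‖ ≤ a) (ha : a < 1) {F : (ι → E) → Set E}
    (hF : ∀ t, IsSelfAffineSet A t (F t)) (i j : ι) (u : E →L[ℝ] ℝ) :
    Continuous (dh A F i j u) := by
  have h4 : 0 ≤ a := (norm_nonneg _).trans (hA i)
  have h1a : 0 < 1 - a := by linarith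
  have key : ∀ i, ∀ t t', hgt A t' (F t') i u - hgt A t (F t) i u ≤
      (‖u‖ + ‖u‖ * a * (1 / (1 - a))) * ‖t' - t‖ := by
    intro i t t'
    have h1 := hgt_move hA ha (hF t) (hF t') i u
    have h2 : u (t' i - t i) ≤ ‖u‖ * ‖t' - t‖ := by
      calc u (t' i - t i) ≤ ‖u (t' i - t i)‖ := Real.le_norm_self _
        _ ≤ ‖u‖ * ‖t' i - t i‖ := u.le_opNorm _
        _ ≤ _ := by
          gcongr
          exact norm_le_pi_norm (t' - t) i
    have h3 : ‖u‖ * a * (‖t' - t‖ / (1 - a)) = ‖u‖ * a * (1 / (1 - a)) * ‖t' - t‖ := by ring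
    linarith
  have key2 : ∀ i, Continuous fun t => hgt A t (F t) i u := by
    intro i
    have h0 : 0 ≤ ‖u‖ + ‖u‖ * a * (1 / (1 - a)) := by positivity
    apply (LipschitzWith.of_dist_le_mul (K := ⟨_, h0⟩) (f := fun t => hgt A t (F t) i u)
      _).continuous
    intro t t'
    rw [Real.dist_eq, dist_eq_norm, abs_le]
    have h1 := key i t t'
    have h2 := key i t' t
    rw [norm_sub_rev] at h1
    change -((‖u‖ + ‖u‖ * a * (1 / (1 - a))) * ‖t - t'‖) ≤ _ ∧
      _ ≤ (‖u‖ + ‖u‖ * a * (1 / (1 - a))) * ‖t - t'‖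
    constructor <;> linarith
  exact (key2 i).sub (key2 j)

variable [MeasurableSpace E] [BorelSpace E] [ProperSpace E] [SecondCountableTopology E]

/-- measure of the near ties -/
private theorem near_tie (μ : Measure (ι → E)) [μ.IsAddLeftInvariant] [IsFiniteMeasureOnCompacts μ]
    (hA : ∀ i, ‖A i‖ ≤ a) (ha : a < 1 / 2) {F : (ι → E) → Set E}
    (hF : ∀ t, IsSelfAffineSet A t (F t)) {i j : ι} (hij : i ≠ j) {m : ℝ} (hm : 0 < m) (R : ℝ) :
    ∃ C : ℝ≥0, ∀ u : E →L[ℝ] ℝ, m ≤ ‖u‖ → ∀ δ : ℝ, 0 ≤ δ →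
      μ {t | t ∈ Metric.closedBall 0 R ∧ |dh A F i j u t| ≤ δ} ≤ C * ENNReal.ofReal δ := by
  classical
  have h4 : 0 ≤ a := (norm_nonneg _).trans (hA i)
  have h1a : 0 < 1 - a := by linarith
  obtain ⟨q, hq⟩ : ∃ q, q = a / (1 - a) := ⟨_, rfl⟩
  have hq1 : q < 1 := by
    rw [hq, div_lt_one h1a]
    linarith
  have hq0 : 0 ≤ q := by rw [hq]; positivity
  obtain ⟨p, hp⟩ : ∃ p, p = (1 + q) / 2 := ⟨_, rfl⟩
  have hp1 : p < 1 := by linarith
  have hp0 : 0 < p := by linarith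
  have hqp : q / p < 1 := by
    rw [div_lt_one hp0]
    linarith
  obtain ⟨c, hc⟩ : ∃ c, c = 2 * (1 - q / p) := ⟨_, rfl⟩
  have hc0 : 0 < c := by linarith
  -- the volume of the bigger ball
  set B := μ (Metric.closedBall (0 : ι → E) (R + 1 / (p * m))) with hB
  have hBt : B ≠ ⊤ := (isCompact_closedBall _ _).measure_ne_top
  have main : ∀ u : E →L[ℝ] ℝ, m ≤ ‖u‖ → ∀ δ : ℝ, 0 < δ →
      μ {t | t ∈ Metric.closedBall 0 R ∧ |dh A F i j u t| ≤ δ} ≤
        ENNReal.ofReal (3 / c) * B * ENNReal.ofReal δ := by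
    intro u hu δ hδ
    have hu0 : 0 < ‖u‖ := by linarith
    -- the direction
    obtain ⟨v, hv1, hv2⟩ : ∃ v : E, u v = 1 ∧ ‖u‖ * ‖v‖ ≤ 1 / p := by
      obtain ⟨z, hz1, hz2⟩ := ContinuousLinearMap.exists_lt_apply_of_lt_opNorm u
        (show ‖u‖ * p < ‖u‖ by nlinarith)
      have h0 : u z ≠ 0 := by
        intro h
        rw [h, norm_zero] at hz2
        have : 0 < ‖u‖ * p := by positivity
        linarith
      refine ⟨(u z)⁻¹ • z, ?_, ?_⟩
      · rw [map_smul, smul_eq_mul, inv_mul_cancel₀ h0]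
      · rw [norm_smul, norm_inv]
        have h1 : 0 < ‖u z‖ := norm_pos_iff.2 h0
        rw [le_div_iff₀ hp0]
        have h2 : ‖u‖ * (‖u z‖⁻¹ * ‖z‖) * p = (‖u‖ * p) * ‖z‖ / ‖u z‖ := by
          field_simp
        rw [h2, div_le_one h1]
        calc ‖u‖ * p * ‖z‖ ≤ ‖u z‖ * 1 := by gcongr
          _ = _ := mul_one _
    set w : ι → E := Pi.single i v - Pi.single j v with hw
    have hwi : w i = v := by simp [hw, hij]
    have hwj : w j = -v := by simp [hw, hij.symm]
    have hwn : ‖w‖ ≤ ‖v‖ := by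
      rw [pi_norm_le_iff_of_nonneg (norm_nonneg _)]
      intro k
      by_cases hki : k = i
      · rw [hki, hwi]
      · by_cases hkj : k = j
        · rw [hkj, hwj, norm_neg]
        · have : w k = 0 := by simp [hw, hki, hkj]
          rw [this, norm_zero]
          exact norm_nonneg _
    have hv3 : ‖v‖ ≤ 1 / (p * m) := by
      have h1 : m * ‖v‖ ≤ 1 / p := (mul_le_mul_of_nonneg_right hu (norm_nonneg _)).trans hv2
      rw [le_div_iff₀ hp0] at h1
      rw [le_div_iff₀ (by positivity)]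
      linarith
    -- monotonicity along w
    have hmono : ∀ t : ι → E, ∀ s : ℝ, 0 ≤ s →
        dh A F i j u t + c * s ≤ dh A F i j u (t + s • w) := by
      intro t s hs
      have h1 := hgt_move hA (by linarith) (hF (t + s • w)) (hF t) i u
      have h2 := hgt_move hA (by linarith) (hF t) (hF (t + s • w)) j u
      have e1 : u (t i - (t + s • w) i) = -s := by
        simp only [Pi.add_apply, Pi.smul_apply, hwi, map_sub, map_add, map_smul, hv1, smul_eq_mul]
        ring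
      have e2 : u ((t + s • w) j - t j) = -s := by
        simp only [Pi.add_apply, Pi.smul_apply, hwj, map_sub, map_add, map_smul, map_neg, hv1,
          smul_eq_mul]
        ring
      have e3 : ‖u‖ * a * (‖t - (t + s • w)‖ / (1 - a)) ≤ q / p * s := by
        have e4 : ‖t - (t + s • w)‖ = s * ‖w‖ := by
          rw [show t - (t + s • w) = -(s • w) by abel, norm_neg, norm_smul,
            Real.norm_of_nonneg hs]
        rw [e4]
        calc ‖u‖ * a * (s * ‖w‖ / (1 - a)) = (‖u‖ * ‖w‖) * q * s := by rw [hq]; ring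
          _ ≤ (1 / p) * q * s := by
            gcongr
            exact (mul_le_mul_of_nonneg_left hwn (norm_nonneg _)).trans hv2
          _ = _ := by ring
      have e5 : ‖u‖ * a * (‖t + s • w - t‖ / (1 - a)) ≤ q / p * s := by
        rwa [norm_sub_rev] at e3
      rw [e1] at h1
      rw [e2] at h2
      simp only [dh]
      rw [hc]
      nlinarith
    -- the translates
    obtain ⟨K, hK⟩ : ∃ K, K = ⌊c / (3 * δ)⌋₊ := ⟨_, rfl⟩
    have hK1 : (K : ℝ) * (3 * δ / c) ≤ 1 := by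
      have h1 := Nat.floor_le (show 0 ≤ c / (3 * δ) by positivity)
      rw [← hK] at h1
      calc (K : ℝ) * (3 * δ / c) ≤ c / (3 * δ) * (3 * δ / c) := by gcongr
        _ = 1 := by field_simp
    have hK2 : c / (3 * δ) ≤ (K : ℝ) + 1 := by
      rw [hK]
      exact (Nat.lt_floor_add_one _).le
    have hmeas : MeasurableSet {t | t ∈ Metric.closedBall 0 R ∧ |dh A F i j u t| ≤ δ} := by
      apply IsClosed.measurableSet
      apply Metric.isClosed_closedBall.inter
      exact isClosed_le (dh_cont hA (by linarith) hF i j u).abs continuous_const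
    have h5 := packing μ hmeas (κ := Fin (K + 1)) (g := fun k => ((k : ℕ) * (3 * δ / c)) • w)
      (Q := Metric.closedBall (0 : ι → E) (R + 1 / (p * m))) (by
        have key : ∀ k l : Fin (K + 1), k < l →
            ∀ x ∈ {t | t ∈ Metric.closedBall 0 R ∧ |dh A F i j u t| ≤ δ},
            ∀ y ∈ {t | t ∈ Metric.closedBall 0 R ∧ |dh A F i j u t| ≤ δ},
            x + ((k : ℕ) * (3 * δ / c)) • w ≠ y + ((l : ℕ) * (3 * δ / c)) • w := by
          intro k l hkl x hx y hy hxy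
          have h6 : x = y + (((l : ℕ) - (k : ℕ) : ℝ) * (3 * δ / c)) • w := by
            rw [sub_mul, sub_smul, ← add_sub_assoc, ← hxy]
            abel
          have h7 : (1 : ℝ) ≤ ((l : ℕ) - (k : ℕ) : ℝ) := by
            have : (k : ℕ) + 1 ≤ (l : ℕ) := hkl
            have h8 : ((k : ℕ) : ℝ) + 1 ≤ ((l : ℕ) : ℝ) := by exact_mod_cast this
            linarith
          have h8 := hmono y (((l : ℕ) - (k : ℕ) : ℝ) * (3 * δ / c)) (by positivity)
          rw [← h6] at h8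
          have h9 : c * (((l : ℕ) - (k : ℕ) : ℝ) * (3 * δ / c)) =
              ((l : ℕ) - (k : ℕ) : ℝ) * (3 * δ) := by
            field_simp
          rw [h9] at h8
          have h10 := (abs_le.1 hx.2).2
          have h11 := (abs_le.1 hy.2).1
          nlinarith
        intro k l hkl x hx y hy
        rcases lt_or_gt_of_ne hkl with h | h
        · exact key k l h x hx y hy
        · exact (key l k h y hy x hx).symm) (by
        rintro k x ⟨hx, -⟩
        rw [mem_closedBall_zero_iff] at hx ⊢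
        have h6 : ‖((k : ℕ) * (3 * δ / c)) • w‖ ≤ 1 * (1 / (p * m)) := by
          rw [norm_smul, Real.norm_of_nonneg (by positivity)]
          apply mul_le_mul _ (hwn.trans hv3) (norm_nonneg _) zero_le_one
          refine le_trans ?_ hK1
          have : ((k : ℕ) : ℝ) ≤ K := by exact_mod_cast Nat.lt_succ_iff.1 k.2
          gcongr
        calc ‖x + ((k : ℕ) * (3 * δ / c)) • w‖ ≤ ‖x‖ + ‖((k : ℕ) * (3 * δ / c)) • w‖ :=
              norm_add_le _ _
          _ ≤ _ := by linarith)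
    rw [Fintype.card_fin] at h5
    rw [← hB] at h5
    have h6 : ENNReal.ofReal (c / (3 * δ)) ≤ ((K + 1 : ℕ) : ℝ≥0∞) := by
      rw [← ENNReal.ofReal_natCast]
      apply ENNReal.ofReal_le_ofReal
      push_cast
      exact hK2
    have h7 : ENNReal.ofReal (3 * δ / c) * ENNReal.ofReal (c / (3 * δ)) = 1 := by
      rw [← ENNReal.ofReal_mul (by positivity)]
      rw [show 3 * δ / c * (c / (3 * δ)) = 1 by field_simp]
      exact ENNReal.ofReal_one
    calc μ {t | t ∈ Metric.closedBall 0 R ∧ |dh A F i j u t| ≤ δ}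
        = ENNReal.ofReal (3 * δ / c) * ENNReal.ofReal (c / (3 * δ)) *
          μ {t | t ∈ Metric.closedBall 0 R ∧ |dh A F i j u t| ≤ δ} := by rw [h7, one_mul]
      _ ≤ ENNReal.ofReal (3 * δ / c) * (((K + 1 : ℕ) : ℝ≥0∞) *
          μ {t | t ∈ Metric.closedBall 0 R ∧ |dh A F i j u t| ≤ δ}) := by
        rw [mul_assoc]
        gcongr
      _ ≤ ENNReal.ofReal (3 * δ / c) * B := by gcongr
      _ = _ := by
        rw [show 3 * δ / c = 3 / c * δ by ring, ENNReal.ofReal_mul (by positivity)]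
        ring
  refine ⟨(ENNReal.ofReal (3 / c) * B).toNNReal, fun u hu δ hδ => ?_⟩
  rw [ENNReal.coe_toNNReal (ENNReal.mul_ne_top ENNReal.ofReal_ne_top hBt)]
  rcases hδ.lt_or_eq with h | h
  · exact main u hu δ h
  · rw [← h, ENNReal.ofReal_zero, mul_zero]
    have h5 : Filter.Tendsto (fun δ' : ℝ => ENNReal.ofReal (3 / c) * B * ENNReal.ofReal δ')
        (nhdsWithin 0 (Set.Ioi 0)) (nhds (ENNReal.ofReal (3 / c) * B * ENNReal.ofReal 0)) := by
      apply Filter.Tendsto.mono_left _ nhdsWithin_le_nhds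
      apply ENNReal.Tendsto.const_mul
      · exact (ENNReal.continuous_ofReal.tendsto 0)
      · right
        exact ENNReal.mul_ne_top ENNReal.ofReal_ne_top hBt
    rw [ENNReal.ofReal_zero, mul_zero] at h5
    apply ge_of_tendsto h5
    filter_upwards [self_mem_nhdsWithin] with δ' hδ'
    refine le_trans (measure_mono ?_) (main u hu δ' hδ')
    rintro t ⟨h6, h7⟩
    exact ⟨h6, h7.trans (le_of_lt hδ')⟩

/-- no ties for almost every `t` -/
private theorem ae_no_tie (μ : Measure (ι → E)) [μ.IsAddLeftInvariant]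
    [IsFiniteMeasureOnCompacts μ]
    (hA : ∀ i, ‖A i‖ ≤ a) (ha : a < 1 / 2) {F : (ι → E) → Set E}
    (hF : ∀ t, IsSelfAffineSet A t (F t)) {U : Set (E →L[ℝ] ℝ)} {m : ℝ} (hm : 0 < m)
    (hU : ∀ u ∈ U, m ≤ ‖u‖) (hH : Measure.hausdorffMeasure 1 U = 0) {i j : ι} (hij : i ≠ j) :
    ∀ᵐ t ∂μ, ∀ u ∈ U, dh A F i j u t ≠ 0 := by
  have h1a : 0 < 1 - a := by linarith
  -- it is enough to consider balls
  have key : ∀ N : ℕ, μ {t | t ∈ Metric.closedBall 0 (N : ℝ) ∧ ∃ u ∈ U, dh A F i j u t = 0} = 0 := by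
    intro N
    obtain ⟨C, hC⟩ := near_tie μ hA ha hF hij hm (N : ℝ)
    obtain ⟨D, hD⟩ : ∃ D : ℝ≥0, (D : ℝ) = 2 * (N / (1 - a)) :=
      ⟨⟨2 * (N / (1 - a)), by positivity⟩, rfl⟩
    -- the cover
    have hcov : ∀ ε : ℝ≥0∞, 0 < ε → ∃ T : ℕ → Set (E →L[ℝ] ℝ), U ⊆ ⋃ n, T n ∧
        (∀ n, Metric.ediam (T n) ≤ 1) ∧ ∑' n, ⨆ _ : (T n).Nonempty, Metric.ediam (T n) < ε := by
      intro ε hε
      rw [Measure.hausdorffMeasure_apply] at hH
      have h1 := le_of_eq hH
      rw [iSup₂_le_iff] at h1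
      have h2 := (h1 1 one_pos).trans_lt hε
      simp only [iInf_lt_iff, ENNReal.rpow_one] at h2
      obtain ⟨T, hT1, hT2, hT3⟩ := h2
      exact ⟨T, hT1, hT2, hT3⟩
    have main : ∀ ε : ℝ≥0∞, 0 < ε →
        μ {t | t ∈ Metric.closedBall 0 (N : ℝ) ∧ ∃ u ∈ U, dh A F i j u t = 0} ≤
          C * (D * ε) := by
      intro ε hε
      obtain ⟨T, hT1, hT2, hT3⟩ := hcov ε hε
      have hsub : {t | t ∈ Metric.closedBall 0 (N : ℝ) ∧ ∃ u ∈ U, dh A F i j u t = 0} ⊆
          ⋃ n, {t | t ∈ Metric.closedBall 0 (N : ℝ) ∧ ∃ u ∈ U ∩ T n, dh A F i j u t = 0} := by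
        rintro t ⟨ht, u, hu, h0⟩
        obtain ⟨n, hn⟩ := Set.mem_iUnion.1 (hT1 hu)
        exact Set.mem_iUnion.2 ⟨n, ht, u, ⟨hu, hn⟩, h0⟩
      have hone : ∀ n, μ {t | t ∈ Metric.closedBall 0 (N : ℝ) ∧
          ∃ u ∈ U ∩ T n, dh A F i j u t = 0} ≤
          C * (D * ⨆ _ : (T n).Nonempty, Metric.ediam (T n)) := by
        intro n
        rcases (U ∩ T n).eq_empty_or_nonempty with he | ⟨u0, hu0, hu0n⟩
        · rw [he]
          simp
        · have hne : (T n).Nonempty := ⟨u0, hu0n⟩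
          have hlt : Metric.ediam (T n) ≠ ⊤ := ((hT2 n).trans_lt ENNReal.one_lt_top).ne
          have h1 := hC u0 (hU u0 hu0) (D * (Metric.ediam (T n)).toReal) (by positivity)
          rw [ENNReal.ofReal_mul (by positivity), ENNReal.ofReal_toReal hlt,
            ENNReal.ofReal_coe_nnreal] at h1
          have h2 : (⨆ _ : (T n).Nonempty, Metric.ediam (T n)) = Metric.ediam (T n) := by
            simp [hne]
          rw [h2]
          refine le_trans (measure_mono ?_) h1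
          rintro t ⟨ht, u, ⟨hu, hun⟩, h0⟩
          refine ⟨ht, ?_⟩
          have h3 : ‖u0 - u‖ ≤ (Metric.ediam (T n)).toReal := by
            rw [← dist_eq_norm]
            exact Metric.dist_le_diam_of_mem' hlt hu0n hun
          rw [mem_closedBall_zero_iff] at ht
          have h5 : ‖t‖ / (1 - a) ≤ N / (1 - a) := by gcongr
          have h6 := hgt_lip hA (by linarith) (hF t) i u0 u
          have h7 := hgt_lip hA (by linarith) (hF t) j u0 u
          have h8 := hgt_lip hA (by linarith) (hF t) i u u0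
          have h9 := hgt_lip hA (by linarith) (hF t) j u u0
          rw [norm_sub_rev] at h8 h9
          have h10 : ‖u0 - u‖ * (‖t‖ / (1 - a)) ≤
              (Metric.ediam (T n)).toReal * (N / (1 - a)) := by gcongr
          rw [hD]
          simp only [dh] at h0 ⊢
          rw [abs_le]
          constructor <;> linarith
      calc μ {t | t ∈ Metric.closedBall 0 (N : ℝ) ∧ ∃ u ∈ U, dh A F i j u t = 0}
          ≤ ∑' n, μ {t | t ∈ Metric.closedBall 0 (N : ℝ) ∧
            ∃ u ∈ U ∩ T n, dh A F i j u t = 0} := (measure_mono hsub).trans (measure_iUnion_le _)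
        _ ≤ ∑' n, C * (D * ⨆ _ : (T n).Nonempty, Metric.ediam (T n)) :=
          ENNReal.tsum_le_tsum hone
        _ = C * (D * ∑' n, ⨆ _ : (T n).Nonempty, Metric.ediam (T n)) := by
          rw [ENNReal.tsum_mul_left, ENNReal.tsum_mul_left]
        _ ≤ C * (D * ε) := by gcongr
    have hlim : Filter.Tendsto (fun ε : ℝ≥0∞ => (C : ℝ≥0∞) * (D * ε))
        (nhdsWithin 0 (Set.Ioi 0)) (nhds (C * (D * 0))) := by
      apply Filter.Tendsto.mono_left _ nhdsWithin_le_nhds
      apply ENNReal.Tendsto.const_mul _ (Or.inr ENNReal.coe_ne_top)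
      apply ENNReal.Tendsto.const_mul Filter.tendsto_id (Or.inr ENNReal.coe_ne_top)
    rw [mul_zero, mul_zero] at hlim
    apply le_antisymm _ zero_le
    apply ge_of_tendsto hlim
    filter_upwards [self_mem_nhdsWithin] with ε hε
    exact main ε hε
  rw [ae_iff]
  have h5 : {t | ¬ ∀ u ∈ U, dh A F i j u t ≠ 0} ⊆
      ⋃ N : ℕ, {t | t ∈ Metric.closedBall 0 (N : ℝ) ∧ ∃ u ∈ U, dh A F i j u t = 0} := by
    intro t ht
    have ht' : ¬ ∀ u ∈ U, dh A F i j u t ≠ 0 := ht
    push Not at ht'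
    obtain ⟨N, hN⟩ := exists_nat_ge ‖t‖
    exact Set.mem_iUnion.2 ⟨N, by rwa [mem_closedBall_zero_iff], ht'⟩
  exact measure_mono_null h5 (measure_iUnion_null key)

/-- If `U` is a compact set of nonzero covectors of zero length, then for almost every `t` the
heights of the pieces in the directions of `U` and `-U` are different, with a uniform gap. -/
theorem ae_gap (μ : Measure (ι → E)) [μ.IsAddLeftInvariant] [IsFiniteMeasureOnCompacts μ]
    (hA : ∀ i, ‖A i‖ ≤ a) (ha : a < 1 / 2) {F : (ι → E) → Set E}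
    (hF : ∀ t, IsSelfAffineSet A t (F t)) {U : Set (E →L[ℝ] ℝ)} (hUc : IsCompact U)
    (hU : ∃ m > 0, ∀ u ∈ U, m ≤ ‖u‖) (hH : Measure.hausdorffMeasure 1 U = 0) :
    ∀ᵐ t ∂μ, ∃ γ > 0, ∀ u ∈ U, ∀ i j, i ≠ j →
      γ ≤ |hgt A t (F t) i u - hgt A t (F t) j u| ∧
      γ ≤ |hgt A t (F t) i (-u) - hgt A t (F t) j (-u)| := by
  classical
  obtain ⟨m, hm, hU⟩ := hU
  have hH' : Measure.hausdorffMeasure 1 ((fun u : E →L[ℝ] ℝ => -u) '' U) = 0 := by
    have h1 : Isometry (fun u : E →L[ℝ] ℝ => -u) := isometry_neg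
    rw [h1.hausdorffMeasure_image (Or.inl zero_le_one), hH]
  have hU' : ∀ u ∈ (fun u : E →L[ℝ] ℝ => -u) '' U, m ≤ ‖u‖ := by
    rintro _ ⟨u, hu, rfl⟩
    rw [norm_neg]
    exact hU u hu
  have h1 : ∀ᵐ t ∂μ, ∀ p : ι × ι, p.1 ≠ p.2 → ∀ u ∈ U, dh A F p.1 p.2 u t ≠ 0 := by
    rw [ae_all_iff]
    intro p
    by_cases hp : p.1 = p.2
    · exact Filter.Eventually.of_forall fun t h => absurd hp h
    · filter_upwards [ae_no_tie μ hA ha hF hm hU hH hp] with t ht _
      exact ht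
  have h2 : ∀ᵐ t ∂μ, ∀ p : ι × ι, p.1 ≠ p.2 → ∀ u ∈ (fun u : E →L[ℝ] ℝ => -u) '' U,
      dh A F p.1 p.2 u t ≠ 0 := by
    rw [ae_all_iff]
    intro p
    by_cases hp : p.1 = p.2
    · exact Filter.Eventually.of_forall fun t h => absurd hp h
    · filter_upwards [ae_no_tie μ hA ha hF hm hU' hH' hp] with t ht _
      exact ht
  filter_upwards [h1, h2] with t ht1 ht2
  -- continuity in `u`
  have hcont : ∀ i, Continuous fun u => hgt A t (F t) i u := by
    intro i
    have h0 : 0 ≤ ‖t‖ / (1 - a) := by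
      have : 0 < 1 - a := by linarith
      positivity
    apply (LipschitzWith.of_dist_le_mul (K := ⟨_, h0⟩) (f := fun u => hgt A t (F t) i u)
      _).continuous
    intro u u'
    rw [Real.dist_eq, dist_eq_norm, abs_le]
    have h1 := hgt_lip hA (by linarith) (hF t) i u u'
    have h2 := hgt_lip hA (by linarith) (hF t) i u' u
    rw [norm_sub_rev] at h2
    change -((‖t‖ / (1 - a)) * ‖u - u'‖) ≤ _ ∧ _ ≤ (‖t‖ / (1 - a)) * ‖u - u'‖
    constructor <;> linarith
  have hpair : ∀ p : ι × ι, ∃ γ > 0, p.1 ≠ p.2 → ∀ u ∈ U,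
      γ ≤ |hgt A t (F t) p.1 u - hgt A t (F t) p.2 u| ∧
      γ ≤ |hgt A t (F t) p.1 (-u) - hgt A t (F t) p.2 (-u)| := by
    intro p
    rcases U.eq_empty_or_nonempty with he | hne
    · exact ⟨1, one_pos, fun _ u hu => by rw [he] at hu; exact absurd hu (Set.notMem_empty u)⟩
    by_cases hp : p.1 = p.2
    · exact ⟨1, one_pos, fun h => absurd hp h⟩
    obtain ⟨u1, hu1, hmin1⟩ := hUc.exists_isMinOn hne
      (((hcont p.1).sub (hcont p.2)).abs).continuousOn
    obtain ⟨u2, hu2, hmin2⟩ := hUc.exists_isMinOn hne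
      (((hcont p.1).sub (hcont p.2)).abs.comp continuous_neg).continuousOn
    have g1 : 0 < |hgt A t (F t) p.1 u1 - hgt A t (F t) p.2 u1| :=
      abs_pos.2 (ht1 p hp u1 hu1)
    have g2 : 0 < |hgt A t (F t) p.1 (-u2) - hgt A t (F t) p.2 (-u2)| :=
      abs_pos.2 (ht2 p hp (-u2) ⟨u2, hu2, rfl⟩)
    refine ⟨min _ _, lt_min g1 g2, fun _ u hu => ⟨?_, ?_⟩⟩
    · exact (min_le_left _ _).trans (hmin1 hu)
    · exact (min_le_right _ _).trans (hmin2 hu)
  choose g hg0 hg using hpair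
  rcases isEmpty_or_nonempty ι with he | hne
  · exact ⟨1, one_pos, fun u _ i => (he.false i).elim⟩
  obtain ⟨p0, hp0⟩ := Finite.exists_min g
  refine ⟨g p0, hg0 p0, fun u hu i j hij => ?_⟩
  obtain ⟨h3, h4⟩ := hg (i, j) hij u hu
  exact ⟨(hp0 _).trans h3, (hp0 _).trans h4⟩

end measure

end Pool.Agent.MP_b039ef_an
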